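import Pool.Agent.MP_6a4325_al.H62.Spec

/-!
Row ZW: property (Z) gives finite dimensional solutions, and the descent to the rationals.
-/

set_option autoImplicit false

namespace Pool.Agent.MP_6a4325_al.H84

open Matrix Pool.Agent.MP_6a4325_al.H62

theorem coords (F G Z M : Type) [Field F] [Group G] [Field Z] [AddCommGroup M] [Module Z M]
    [Module (MonoidAlgebra F G) M] [SMulCommClass (MonoidAlgebra F G) Z M] [Module.Finite Z M]
    (φ : F →+* Z) (hφ : ∀ (c : F) (m : M), φ c • m = (MonoidAlgebra.single (1 : G) c) • m) :
    ∃ (K : Type) (_ : Field K) (_ : Algebra F K) (_ : IsAlgClosed K) (n : ℕ)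
      (ρ : G →* Matrix (Fin n) (Fin n) K) (κ : M →+ (Fin n → K)), Function.Injective κ ∧
      ∀ (x : MonoidAlgebra F G) (m : M), κ (x • m) = act F ρ x *ᵥ κ m := by
  classical
  let K := AlgebraicClosure Z
  let ι : Z →+* K := algebraMap Z K
  let alg : Algebra F K := (ι.comp φ).toAlgebra
  let n := Module.finrank Z M
  let b : Module.Basis (Fin n) Z M := Module.finBasis Z M
  let σ : MonoidAlgebra F G →+* Module.End Z M := Module.toModuleEnd Z M
  let τ : MonoidAlgebra F G →+* Matrix (Fin n) (Fin n) K :=
    (ι.mapMatrix).comp (((LinearMap.toMatrixAlgEquiv b).toRingEquiv.toRingHom).comp σ)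
  let ρ : G →* Matrix (Fin n) (Fin n) K := τ.toMonoidHom.comp (MonoidAlgebra.of F G)
  let κ : M →+ (Fin n → K) :=
    { toFun := fun m i => ι (b.repr m i)
      map_zero' := by ext i; simp
      map_add' := by intro a c; ext i; simp }
  have hκ : ∀ (x : MonoidAlgebra F G) (m : M), κ (x • m) = τ x *ᵥ κ m := by
    intro x m
    have h1 : b.repr (x • m) = (LinearMap.toMatrix b b (σ x)) *ᵥ b.repr m := by
      rw [LinearMap.toMatrix_mulVec_repr]
      rfl
    ext i
    change ι (b.repr (x • m) i) = _
    rw [h1]
    simp only [Matrix.mulVec, dotProduct, map_sum, map_mul]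
    rfl
  refine ⟨K, inferInstance, alg, inferInstance, n, ρ, κ, ?_, ?_⟩
  · intro a c h
    apply b.repr.injective
    ext i
    exact ι.injective (congrFun h i)
  · intro x m
    induction x using MonoidAlgebra.induction_linear with
    | zero => simp
    | add x y hx hy => rw [add_smul, map_add, hx, hy, map_add, Matrix.add_mulVec]
    | single g c =>
      have e1 : (MonoidAlgebra.single g c : MonoidAlgebra F G) =
          MonoidAlgebra.single 1 c * MonoidAlgebra.single g 1 := by
        rw [MonoidAlgebra.single_mul_single, one_mul, mul_one]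
      have e2 : ∀ m : M, κ (φ c • m) = c • κ m := by
        intro m
        ext i
        change ι (b.repr (φ c • m) i) = c • ι (b.repr m i)
        rw [map_smul, Finsupp.smul_apply, smul_eq_mul, map_mul, Algebra.smul_def]
        rfl
      rw [MonoidAlgebra.lift_single, Matrix.smul_mulVec, e1, mul_smul, ← hφ, e2, hκ]
      rfl

theorem zw : SZW := by
  intro F G _ _ hZ m L hL
  classical
  obtain ⟨N, hN, hLN⟩ := (eq_top_or_exists_le_coatom L).resolve_left hL
  let R := MonoidAlgebra F G
  let M := (Fin m → R) ⧸ N
  have hs : IsSimpleModule R M := isSimpleModule_iff_isCoatom.2 hN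
  have hf := hZ M hs
  let Z := Subring.center (Module.End R M)
  have hc : ∀ (c : F) (x : R), x * MonoidAlgebra.single (1 : G) c =
      MonoidAlgebra.single (1 : G) c * x := by
    intro c x
    exact (Algebra.commutes c x).symm
  let ψ : F → Module.End R M := fun c =>
    { toFun := fun y => (MonoidAlgebra.single (1 : G) c : R) • y
      map_add' := fun a b => smul_add _ a b
      map_smul' := fun x y => by
        rw [RingHom.id_apply, ← mul_smul, ← mul_smul, hc] }
  have hψ : ∀ c, ψ c ∈ Subring.center (Module.End R M) := by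
    intro c
    rw [Subring.mem_center_iff]
    intro f
    apply LinearMap.ext
    intro y
    exact f.map_smul _ y
  let φ : F →+* Z :=
    { toFun := fun c => ⟨ψ c, hψ c⟩
      map_one' := by
        apply Subtype.ext
        apply LinearMap.ext
        intro y
        exact one_smul R y
      map_mul' := fun c d => by
        apply Subtype.ext
        apply LinearMap.ext
        intro y
        change (MonoidAlgebra.single (1 : G) (c * d) : R) • y =
          (MonoidAlgebra.single (1 : G) c : R) • (MonoidAlgebra.single (1 : G) d : R) • y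
        rw [← mul_smul, MonoidAlgebra.single_mul_single, one_mul]
      map_zero' := by
        apply Subtype.ext
        apply LinearMap.ext
        intro y
        change (MonoidAlgebra.single (1 : G) (0 : F) : R) • y = 0
        rw [MonoidAlgebra.single_zero, zero_smul]
      map_add' := fun c d => by
        apply Subtype.ext
        apply LinearMap.ext
        intro y
        change (MonoidAlgebra.single (1 : G) (c + d) : R) • y =
          (MonoidAlgebra.single (1 : G) c : R) • y + (MonoidAlgebra.single (1 : G) d : R) • y
        rw [MonoidAlgebra.single_add, add_smul] }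
  have : SMulCommClass R Z M := ⟨fun x z y => (z.1.map_smul x y).symm⟩
  obtain ⟨K, i1, i2, i3, n, ρ, κ, hinj, hκ⟩ := coords F G Z M φ (fun c y => rfl)
  have key : ∀ x : Fin m → R, ∑ i, act F ρ (x i) *ᵥ κ (N.mkQ (Pi.single i 1)) = κ (N.mkQ x) := by
    intro x
    have hx : x = ∑ i, x i • (Pi.single i 1 : Fin m → R) := pi_eq_sum_univ' x
    conv_rhs => rw [hx, map_sum, map_sum]
    refine Finset.sum_congr rfl fun i _ => ?_
    rw [map_smul, hκ]
  refine ⟨K, i1, i2, i3, n, ρ, fun i => κ (N.mkQ (Pi.single i 1)), ?_, ?_⟩
  · intro h0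
    apply hN.1
    rw [eq_top_iff]
    intro x _
    have h1 : κ (N.mkQ x) = 0 := by
      rw [← key]
      refine Finset.sum_eq_zero fun i _ => ?_
      have h2 : κ (N.mkQ (Pi.single i 1)) = 0 := congrFun h0 i
      rw [h2, Matrix.mulVec_zero]
    have h3 : N.mkQ x = 0 := hinj (h1.trans (map_zero κ).symm)
    exact (Submodule.Quotient.mk_eq_zero N).1 h3
  · intro x hx
    rw [key]
    have h3 : N.mkQ x = 0 := (Submodule.Quotient.mk_eq_zero N).2 (hLN hx)
    rw [h3, map_zero]

theorem wq : SWQ := by
  intro F G _ _ _ hW m L hL
  classical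
  obtain ⟨r, hr⟩ : ∃ r : F →ₗ[ℚ] ℚ, r 1 = 1 :=
    Module.Projective.exists_dual_eq_one ℚ (one_ne_zero : (1 : F) ≠ 0)
  let ι : MonoidAlgebra ℚ G →+* MonoidAlgebra F G := MonoidAlgebra.mapRingHom G (algebraMap ℚ F)
  let T : MonoidAlgebra F G →+ MonoidAlgebra ℚ G :=
    { toFun := MonoidAlgebra.map r.toAddMonoidHom
      map_zero' := MonoidAlgebra.map_zero _
      map_add' := MonoidAlgebra.map_add _ }
  have hT : ∀ g c, T (MonoidAlgebra.single g c) = MonoidAlgebra.single g (r c) :=
    fun g c => MonoidAlgebra.map_single _ _ _
  have hm : ∀ (a : MonoidAlgebra F G) (x : MonoidAlgebra ℚ G), T (a * ι x) = T a * x := by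
    intro a x
    induction a using MonoidAlgebra.induction_linear with
    | zero => simp
    | add a b ha hb => rw [add_mul, map_add, ha, hb, map_add, add_mul]
    | single g c =>
      induction x using MonoidAlgebra.induction_linear with
      | zero => simp
      | add x y hx hy => rw [map_add, mul_add, map_add, hx, hy, mul_add]
      | single h q =>
        rw [MonoidAlgebra.mapRingHom_single, MonoidAlgebra.single_mul_single, hT, hT,
          MonoidAlgebra.single_mul_single, mul_comm c, ← Algebra.smul_def, map_smul, smul_eq_mul,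
          mul_comm q]
  have h1 : T 1 = 1 := by
    rw [MonoidAlgebra.one_def, hT, hr, MonoidAlgebra.one_def]
  let L' : Submodule (MonoidAlgebra F G) (Fin m → MonoidAlgebra F G) :=
    { carrier := {z | ∀ a : MonoidAlgebra F G, (fun i => T (a * z i)) ∈ L}
      zero_mem' := by
        intro a
        have : (fun i => T (a * (0 : Fin m → MonoidAlgebra F G) i)) = 0 := by
          ext1 i; simp
        rw [this]
        exact L.zero_mem
      add_mem' := by
        intro z w hz hw a
        have : (fun i => T (a * (z + w) i)) = (fun i => T (a * z i)) + fun i => T (a * w i) := by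
          ext1 i; simp [mul_add]
        rw [this]
        exact L.add_mem (hz a) (hw a)
      smul_mem' := by
        intro c z hz a
        have : (fun i => T (a * (c • z) i)) = fun i => T (a * c * z i) := by
          ext1 i; simp [mul_assoc]
        rw [this]
        exact hz (a * c) }
  have hι : ∀ x ∈ L, (fun i => ι (x i)) ∈ L' := by
    intro x hx a
    have : (fun i => T (a * ι (x i))) = T a • x := by
      ext1 i; rw [hm]; rfl
    rw [this]
    exact L.smul_mem _ hx
  have hL' : L' ≠ ⊤ := by
    intro h
    apply hL
    rw [eq_top_iff]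
    intro x _
    have h2 : (fun i => ι (x i)) ∈ L' := h ▸ Submodule.mem_top
    have h3 := h2 1
    have : (fun i => T (1 * ι (x i))) = x := by
      ext1 i; rw [hm, h1, one_mul]
    rwa [this] at h3
  obtain ⟨K, i1, i2, i3, n, ρ, v, hv, hs⟩ := hW m L' hL'
  let alg : Algebra ℚ K := ((algebraMap F K).comp (algebraMap ℚ F)).toAlgebra
  have : IsScalarTower ℚ F K := IsScalarTower.of_algebraMap_eq fun _ => rfl
  refine ⟨K, i1, alg, i3, n, ρ, v, hv, fun x hx => ?_⟩
  rw [← hs _ (hι x hx)]
  refine Finset.sum_congr rfl fun i _ => ?_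
  rw [MonoidAlgebra.lift_mapRingHom_algebraMap]

end Pool.Agent.MP_6a4325_al.H84
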