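import Pool.Agent.MP_6a4325_al.H84.Spec3
import Pool.Agent.MP_6a4325_al.H62.Final2

/-!
The assembly of the classification for elementary amenable groups from the steps.
-/

set_option autoImplicit false

namespace Pool.Agent.MP_6a4325_al.H84

open Pool.Agent.MP_6a4325_al.H62

theorem tPoly : SPoly := by
  intro G _ ⟨hfg, N, hN, hs⟩
  refine ⟨N.normalCore, inferInstance, inferInstance, tPC.ofSolv _ ?_ fun K => ?_⟩
  · exact Group.isSolvable_of_isSolvable_injective
      (Subgroup.inclusion_injective N.normalCore_le)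
  · exact fg_of_map_inj _ N.normalCore.subtype_injective (hfg _)

theorem tFdl : SFdl := by
  intro p _ G _ h
  obtain ⟨N, -, hN, hP⟩ := tPoly G h
  exact fi _ G N hN (tRose p (Kp p) N (absolute_kp p) hP)

theorem lft (hV : VsApi) (hb : SBnd) (hs : SSpc) (h2 : SBd2) (hl : SLast) : SLft := by
  intro p _ G _ hG hW
  obtain ⟨D, hD⟩ := hb p G hG hW
  obtain ⟨N, hN, h1⟩ := h2 p G D (hs p G D hG hD)
  refine ⟨N, 1, hN, ?_⟩
  rw [derivedSeries_one]
  exact hl p N (hV.lfInj G N N.subtype N.subtype_injective hG) (hW.sub N) h1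

theorem lfd (hV : VsApi) (hP : SPv) (hl : SLft) : SLfd := by
  intro p _ G _ hG hW
  refine (hP p).ext G (commutator G) (hl p _ (hV.lfd G hG) (hW.sub _)) ⟨⊤, inferInstance, ?_⟩
  let : CommGroup (G ⧸ commutator G) := inferInstanceAs (CommGroup (Abelianization G))
  infer_instance

theorem main3 (hV : VsApi) (hP : SPv) (hx : SFx) (hb : SBigR) (hq : SQfb) (hd : SDel) (hh : SHl)
    (hl : SLfd) (he : SExt3) : SMain := by
  intro p _ G _ hG hW
  obtain ⟨H, K, D, hH, hKH, hi, h1, h2⟩ := hx p G hG hW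
  let R := Subgroup.normalClosure (K : Set G)
  have hR : PVS p R := hh p R (hV.lInj G R R.subtype R.subtype_injective hG) (hW.sub R) _
    (hb p G H K hG hH hKH hi h2)
  have hsurj := QuotientGroup.mk'_surjective R
  have hE : Finite (H.map (QuotientGroup.mk' R)) := by
    have h3 : R.relIndex H ≠ 0 := fun e =>
      hi (Subgroup.relIndex_eq_zero_of_le_left Subgroup.le_normalClosure e)
    have h4 : ((QuotientGroup.mk' R).ker).relIndex H ≠ 0 := by rwa [QuotientGroup.ker_mk']
    rw [Subgroup.relIndex_ker] at h4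
    exact Nat.finite_of_card_ne_zero h4
  obtain ⟨Δ, hΔ, h5⟩ := hd p (G ⧸ R) _ D (hV.lSurj G _ _ hsurj hG) hE
    (hq _ G _ (QuotientGroup.mk' R) H D hsurj hH h1)
  exact he p G R hG hW hR ((hP p).fin _ Δ hΔ (hl p Δ h5 ((hW.quot R).sub Δ)))

section Pos

variable {p : ℕ} [Fact p.Prime] {F : Type} [Field F]

omit [Fact p.Prime] in
theorem finRk_map {A B : Type} [Group A] [Group B] (e : A ≃* B)
    (h : FinRk (Subgroup.center A)) : FinRk (Subgroup.center B) := by
  classical
  obtain ⟨T, h1, h2⟩ := h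
  have hc : ∀ a : A, a ∈ Subgroup.center A ↔ e a ∈ Subgroup.center B := fun a => by
    simp only [Subgroup.mem_center_iff]
    refine ⟨fun h g => ?_, fun h g => e.injective ?_⟩
    · obtain ⟨g, rfl⟩ := e.surjective g
      rw [← map_mul, ← map_mul, h]
    · rw [map_mul, map_mul, h]
  refine ⟨T.image e, fun t ht => ?_, fun b hb => ?_⟩
  · obtain ⟨t', ht', rfl⟩ := Finset.mem_image.1 ht
    exact (hc t').1 (h1 t' ht')
  · obtain ⟨b, rfl⟩ := e.surjective b
    obtain ⟨m, hm, h3⟩ := h2 b ((hc b).2 hb)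
    refine ⟨m, hm, ?_⟩
    rw [← map_pow, Finset.coe_image]
    have h4 := Subgroup.mem_map_of_mem e.toMonoidHom h3
    rwa [MonoidHom.map_closure] at h4

theorem ser_map {A B : Type} [Group A] [Group B] (e : A ≃* B)
    (h : Ser p (Subgroup.center A) ⊤) : Ser p (Subgroup.center B) ⊤ := by
  have h1 := (tSer p).map _ _ e.toMonoidHom _ _ h
  rw [Subgroup.map_top_of_surjective _ e.surjective] at h1
  refine (tSer p).up _ _ _ _ ?_ le_top (nz_of_normal _ _) h1
  rintro _ ⟨a, ha, rfl⟩
  refine Subgroup.mem_center_iff.2 fun g => ?_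
  obtain ⟨g, rfl⟩ := e.surjective g
  have h2 := Subgroup.mem_center_iff.1 ha g
  change e g * e a = e a * e g
  rw [← map_mul, ← map_mul, h2]

/-- the alternative in the classification -/
def Alt (p : ℕ) (F Q : Type) [Field F] [Group Q] : Prop :=
  (∀ a b : Q, a * b = b * a) ∨
    (Absolute F ∧ FinRk (Subgroup.center Q) ∧ Ser p (Subgroup.center Q) ⊤)

theorem Alt.map {A B : Type} [Group A] [Group B] (e : A ≃* B) (h : Alt p F A) : Alt p F B := by
  rcases h with h | ⟨h1, h2, h3⟩
  · refine Or.inl fun a b => ?_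
    obtain ⟨a, rfl⟩ := e.surjective a
    obtain ⟨b, rfl⟩ := e.surjective b
    rw [← map_mul, ← map_mul, h]
  · exact Or.inr ⟨h1, finRk_map e h2, ser_map e h3⟩

theorem cond_of_hom {G Q : Type} [Group G] [Group Q] (hL : LocNoeth G) (N : Subgroup G)
    (hN : N.FiniteIndex) (f : N →* Q) (hf : Function.Surjective f) (hk : IsPGroup p f.ker)
    (h : Alt p F Q) : Cond p F G :=
  ⟨hL, N, f.ker, inferInstance, hN, fun s hs => (hk ⟨s, hs⟩).imp fun _ hj =>
    congrArg Subtype.val hj, h.map (QuotientGroup.quotientKerEquivOfSurjective f hf).symm⟩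

theorem nec3 [CharP F p] (hV : VsApi) (hm : SMain) (he : SEal) {G : Type} [Group G] (hG : EA G)
    (h : PropZ F G) : Cond p F G := by
  let := ZMod.algebra F p
  have : ExpChar F p := ExpChar.prime Fact.out
  have hW := H84.zw F G h
  have hW0 : W (ZMod p) G := H45.wsub _ F G hW
  have hLP := he p G hG hW0
  obtain ⟨N, d, hN, hS⟩ := hm p G hLP hW0
  let S := derivedSeries N d
  have hsolv : Group.IsSolvable (N ⧸ S) := ⟨⟨d, by
    rw [← map_derivedSeries_eq (QuotientGroup.mk'_surjective S), Subgroup.map_eq_bot_iff,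
      QuotientGroup.ker_mk']⟩⟩
  have h1 := (soluble_classification F (N ⧸ S) hsolv).1 (H88.wz F _ ((hW.sub N).quot S))
  rw [ringExpChar.eq F p] at h1
  obtain ⟨-, N₁, S₁, _, hN₁, hS₁, h2⟩ := h1
  let π := QuotientGroup.mk' S
  let N₂ : Subgroup N := N₁.comap π
  have hN₂ : N₂.FiniteIndex := finiteIndex_comap N₁ hN₁ π
  let e := N₂.equivMapOfInjective N.subtype N.subtype_injective
  let f₀ : N₂ →* N₁ := π.subgroupComap N₁
  have hf₀ : Function.Surjective f₀ :=
    π.subgroupComap_surjective_of_surjective N₁ (QuotientGroup.mk'_surjective S)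
  let f : N₂.map N.subtype →* N₁ ⧸ S₁ := ((QuotientGroup.mk' S₁).comp f₀).comp e.symm.toMonoidHom
  have hf : Function.Surjective f :=
    ((QuotientGroup.mk'_surjective S₁).comp hf₀).comp e.symm.surjective
  refine cond_of_hom (hV.lNoeth G hLP) _ (finiteIndex_map_subtype N hN N₂ hN₂) f hf ?_ h2
  rintro ⟨x, hx⟩
  obtain ⟨x, rfl⟩ := e.surjective x
  have h3 : f₀ x ∈ S₁ := by
    have h4 : QuotientGroup.mk' S₁ (f₀ (e.symm (e x))) = 1 := hx
    rwa [e.symm_apply_apply, QuotientGroup.mk'_apply, QuotientGroup.eq_one_iff] at h4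
  obtain ⟨i, hi⟩ := hS₁ _ h3
  have h5 : (x : N) ^ p ^ i ∈ S := by
    have h6 : π ((x : N) ^ p ^ i) = 1 := by
      rw [map_pow]
      exact congrArg Subtype.val hi
    exact (QuotientGroup.eq_one_iff _).1 h6
  obtain ⟨j, hj⟩ := hS ⟨_, h5⟩
  refine ⟨i + j, Subtype.ext ?_⟩
  have h7 : x ^ p ^ (i + j) = 1 := Subtype.ext (by
    have h8 : ((x : N) ^ p ^ i) ^ p ^ j = 1 := congrArg Subtype.val hj
    rw [pow_add, pow_mul]
    exact h8)
  change e x ^ p ^ (i + j) = 1
  rw [← map_pow, h7, map_one]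

omit [Fact p.Prime] in
theorem solv_of_ser {Q : Type} [Group Q] (h : Ser p (Subgroup.center Q) ⊤) :
    Group.IsSolvable Q := by
  have key : ∀ K : Subgroup Q, Ser p (Subgroup.center Q) K → Group.IsSolvable K := fun K hK => by
    induction hK with
    | refl =>
      exact Group.isSolvable_of_comm fun a b => Subtype.ext (Subgroup.mem_center_iff.1 b.2 a)
    | @tail K K' _ h2 ih =>
      obtain ⟨hle, f, hf, -⟩ := h2
      refine Group.isSolvable_of_ker_le_range (Subgroup.inclusion hle) f ?_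
      rw [hf, Subgroup.inclusion_range]
  have := key ⊤ h
  exact Group.isSolvable_of_surjective (f := (⊤ : Subgroup Q).subtype) fun g => ⟨⟨g, trivial⟩, rfl⟩

theorem suf3 [CharP F p] (hf : SEaf) (hw : SWs3) {G : Type} [Group G] (hG : EA G)
    (h : Cond p F G) : PropZ F G := by
  have : ExpChar F p := ExpChar.prime Fact.out
  obtain ⟨hL, N, S, _, hN, hS, h⟩ := h
  have hL' := (hL.sub N).of_surj _ (QuotientGroup.mk'_surjective S)
  have hsolv : Group.IsSolvable (N ⧸ S) := by
    rcases h with h | ⟨-, -, h⟩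
    · let : CommGroup (N ⧸ S) := { (inferInstance : Group (N ⧸ S)) with mul_comm := h }
      infer_instance
    · exact solv_of_ser h
  have hq : PropZ F (N ⧸ S) := by
    refine (soluble_classification F (N ⧸ S) hsolv).2 ?_
    rw [ringExpChar.eq F p]
    refine cond_of_hom hL' ⊤ inferInstance (⊤ : Subgroup (N ⧸ S)).subtype
      (fun g => ⟨⟨g, trivial⟩, rfl⟩) ?_ h
    rw [Subgroup.ker_subtype]
    exact IsPGroup.of_bot
  have hp : IsPGroup p (QuotientGroup.mk' S).ker := by
    rw [QuotientGroup.ker_mk']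
    exact fun ⟨s, hs⟩ => (hS s hs).imp fun j hj => Subtype.ext hj
  refine H88.wz F G (H54.wfi F G N hN (hw p F N _ _ (QuotientGroup.mk'_surjective S)
    (fun H hH => ?_) hp (H84.zw F _ hq)))
  let P := (QuotientGroup.mk' S).ker.subgroupOf H
  have hP : IsPGroup p P := hp.comap_subtype
  let j : P →* N := H.subtype.comp P.subtype
  have hj : Function.Injective j := H.subtype_injective.comp P.subtype_injective
  refine hf P (EA.sub G P (N.subtype.comp j) (N.subtype_injective.comp hj) hG) ⟨?_⟩ fun g => ?_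
  · exact fg_of_map_inj j hj ((hL.sub N) H hH _ fun _ ⟨x, _, e⟩ => e ▸ x.1.2)
  · exact (hP g).elim fun i hi => isOfFinOrder_iff_pow_eq_one.2
      ⟨_, pow_pos (Fact.out : p.Prime).pos i, hi⟩

end Pos

theorem cond_zero3 (F G : Type) [Field F] [CharZero F] [Group G] (hG : EA G) :
    PropZ F G ↔ Cond 1 F G := by
  constructor
  · intro h
    have hva := sea G hG (hw_of_propZ F G h)
    obtain ⟨A, _, hA, hc⟩ := id hva
    refine ⟨locNoeth_of_va hva, A, ⊥, inferInstance, hA, fun s hs => ⟨0, by simpa using hs⟩,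
      Or.inl fun a b => ?_⟩
    obtain ⟨a, rfl⟩ := QuotientGroup.mk_surjective a
    obtain ⟨b, rfl⟩ := QuotientGroup.mk_surjective b
    rw [← QuotientGroup.mk_mul, ← QuotientGroup.mk_mul,
      show a * b = b * a from Subtype.ext (hc a a.2 b b.2)]
  · rintro ⟨-, N, S, _, hN, hS, h | ⟨h, -⟩⟩
    · refine H60.conv F G (VA.of_finiteIndex N hN (VA.of_abelian fun a b => ?_))
      have h1 := h a b
      rw [← QuotientGroup.mk_mul, ← QuotientGroup.mk_mul, QuotientGroup.eq] at h1
      obtain ⟨j, hj⟩ := hS _ h1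
      rw [one_pow, pow_one] at hj
      exact inv_mul_eq_one.1 hj
    · obtain ⟨m, hm, e⟩ := isOfFinOrder_iff_pow_eq_one.1 (h 2 two_ne_zero)
      have h2 : (2 : ℕ) ^ m = 1 := by exact_mod_cast e
      exact absurd ((Nat.pow_eq_one.1 h2).resolve_left (by norm_num)) hm.ne'

theorem classif3 (hV : VsApi) (hm : SMain) (he : SEal) (hf : SEaf) (hw : SWs3)
    (F G : Type) [Field F] [Group G] (hG : EA G) : PropZ F G ↔ Cond (ringExpChar F) F G := by
  obtain ⟨p, hp⟩ := CharP.exists F
  rcases CharP.char_is_prime_or_zero F p with h | rfl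
  · have := Fact.mk h
    have : ExpChar F p := ExpChar.prime h
    rw [ringExpChar.eq F p]
    exact ⟨nec3 hV hm he hG, suf3 hf hw hG⟩
  · have := CharP.charP_to_charZero F
    rw [ringExpChar.eq F 1]
    exact cond_zero3 F G hG

end Pool.Agent.MP_6a4325_al.H84
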