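import Pool.Agent.MP_6a4325_al.H84.Spec3

/-!
Row IDEM: an element of the ideal of identities that acts as the identity.
-/

set_option autoImplicit false

namespace Pool.Agent.MP_6a4325_al.H84

open Pool.Agent.MP_6a4325_al.H62 Module

namespace Idem

theorem ex_pow {A : Type} [Monoid A] (b : A) (h : (Set.range fun n : ℕ => b ^ n).Finite) :
    ∃ N : ℕ, 0 < N ∧ b ^ N * b ^ N = b ^ N := by
  obtain ⟨i, -, j, -, hij, e⟩ := Set.infinite_univ.exists_lt_map_eq_of_mapsTo
    (f := fun n : ℕ => b ^ n) (fun n _ => Set.mem_range_self n) h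
  obtain ⟨d, rfl⟩ := Nat.exists_eq_add_of_lt hij
  have h1 : ∀ m, b ^ (i + m * (d + 1)) = b ^ i := fun m => by
    induction m with
    | zero => simp
    | succ m ih =>
      rw [show i + (m + 1) * (d + 1) = (i + m * (d + 1)) + (d + 1) by ring, pow_add, ih, ← pow_add,
        ← add_assoc]
      exact e.symm
  refine ⟨(i + 1) * (d + 1), by positivity, ?_⟩
  have h2 : (i + 1) * (d + 1) = (i * d + d + 1) + i := by ring
  rw [← pow_add, show (i + 1) * (d + 1) + (i + 1) * (d + 1) =
    (i * d + d + 1) + (i + (i + 1) * (d + 1)) by ring, pow_add, h1, ← pow_add, ← h2]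

variable {k M : Type} [Field k] [AddCommGroup M] [Module k M] [FiniteDimensional k M]

theorem ex_trace {ι : Type} (v : ι → End k M) (hv : Submodule.span k (Set.range v) = ⊤)
    (a c : End k M) (ha : a ≠ 0) (hc : c ≠ 0) :
    ∃ g h, LinearMap.trace k M (v g * a * v h * c) ≠ 0 := by
  by_contra hcon
  push Not at hcon
  have h1 : ∀ h x, LinearMap.trace k M (x * (a * v h * c)) = 0 := fun h x => by
    have h2 : LinearMap.trace k M ∘ₗ LinearMap.mulRight k (a * v h * c) = 0 :=
      LinearMap.ext_on_range hv fun g => by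
        simpa [mul_assoc] using hcon g h
    exact LinearMap.congr_fun h2 x
  have h3 : ∀ x y, LinearMap.trace k M (x * a * (y * c)) = 0 := fun x y => by
    have h2 : LinearMap.trace k M ∘ₗ LinearMap.mulLeft k (x * a) ∘ₗ LinearMap.mulRight k c = 0 :=
      LinearMap.ext_on_range hv fun h => by
        simpa [mul_assoc] using h1 h x
    exact LinearMap.congr_fun h2 y
  obtain ⟨z, hz⟩ := DFunLike.ne_iff.1 ha
  obtain ⟨w, hw⟩ := DFunLike.ne_iff.1 hc
  obtain ⟨l, hl⟩ := Projective.exists_dual_eq_one k (show c w ≠ 0 from hw)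
  obtain ⟨m, hm⟩ := Projective.exists_dual_eq_one k (show a z ≠ 0 from hz)
  have h4 := h3 (m.smulRight w) (l.smulRight z)
  have h5 : m.smulRight w * a * (l.smulRight z * c) = (l ∘ₗ c).smulRight w :=
    LinearMap.ext fun u => by simp [hm]
  rw [h5, LinearMap.trace_smulRight] at h4
  exact one_ne_zero (hl.symm.trans h4)

/-- a nonzero ideal of a finite spanning subring contains the identity -/
theorem one_mem {ι : Type} (v : ι → End k M) (hv : Submodule.span k (Set.range v) = ⊤)
    (S : Set (End k M)) (hS : S.Finite) (h0 : 0 ∈ S) (hadd : ∀ a ∈ S, ∀ b ∈ S, a + b ∈ S)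
    (hsub : ∀ a ∈ S, ∀ b ∈ S, a - b ∈ S) (hmul : ∀ a ∈ S, ∀ b ∈ S, a * b ∈ S)
    (hv' : ∀ a ∈ S, ∀ g h, v g * a * v h ∈ S) (hne : ∃ a ∈ S, a ≠ 0) : 1 ∈ S := by
  obtain ⟨e, ⟨he, hee⟩, hmax⟩ := Set.exists_max_image {e | e ∈ S ∧ e * e = e}
    (fun e => finrank k (LinearMap.range e)) (hS.subset fun _ h => h.1) ⟨0, h0, mul_zero _⟩
  by_contra h1
  have hc : 1 - e ≠ 0 := fun h => h1 (sub_eq_zero.1 h ▸ he)
  obtain ⟨a₀, ha₀, ha₀'⟩ := hne
  obtain ⟨g, h, ht⟩ := ex_trace v hv a₀ (1 - e) ha₀' hc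
  have ha := hv' a₀ ha₀ g h
  generalize v g * a₀ * v h = a at ht ha
  have c1 : e * (1 - e) = 0 := by rw [mul_sub, mul_one, hee, sub_self]
  have c2 : (1 - e) * e = 0 := by rw [sub_mul, one_mul, hee, sub_self]
  have c3 : (1 - e) * (1 - e) = 1 - e := by rw [sub_mul, one_mul, c1, sub_zero]
  have hb : (1 - e) * a * (1 - e) ∈ S := by
    have h2 : (1 - e) * a ∈ S := by
      rw [sub_mul, one_mul]; exact hsub _ ha _ (hmul _ he _ ha)
    rw [mul_sub, mul_one]
    exact hsub _ h2 _ (hmul _ h2 _ he)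
  have hbt : LinearMap.trace k M ((1 - e) * a * (1 - e)) ≠ 0 := by
    rwa [mul_assoc, LinearMap.trace_mul_comm, mul_assoc, c3]
  have b1 : e * ((1 - e) * a * (1 - e)) = 0 := by rw [← mul_assoc, ← mul_assoc, c1, zero_mul, zero_mul]
  have b2 : (1 - e) * a * (1 - e) * e = 0 := by rw [mul_assoc, c2, mul_zero]
  generalize (1 - e) * a * (1 - e) = b at hb hbt b1 b2
  have hp : ∀ n, b ^ (n + 1) ∈ S := fun n => by
    induction n with
    | zero => rwa [zero_add, pow_one]
    | succ n ih => rw [pow_succ]; exact hmul _ ih _ hb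
  obtain ⟨N, hN, hf⟩ := ex_pow b ((hS.insert 1).subset (by
    rintro _ ⟨n, rfl⟩
    rcases n with _ | n
    · exact Or.inl (pow_zero b)
    · exact Or.inr (hp n)))
  obtain ⟨N, rfl⟩ := Nat.exists_eq_succ_of_ne_zero hN.ne'
  have f0 : b ^ (N + 1) ≠ 0 := fun h =>
    hbt (LinearMap.isNilpotent_trace_of_isNilpotent ⟨_, h⟩).eq_zero
  have f1 : e * b ^ (N + 1) = 0 := by rw [pow_succ', ← mul_assoc, b1, zero_mul]
  have f2 : b ^ (N + 1) * e = 0 := by rw [pow_succ, mul_assoc, b2, mul_zero]
  have f3 := hp N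
  generalize b ^ (N + 1) = f at hf f0 f1 f2 f3
  have g1 : (e + f) * e = e := by rw [add_mul, hee, f2, add_zero]
  have g2 : (e + f) * f = f := by rw [add_mul, hf, f1, zero_add]
  have h3 := hmax (e + f) ⟨hadd _ he _ f3, by rw [mul_add, g1, g2]⟩
  have h4 : LinearMap.range e < LinearMap.range (e + f) := by
    refine lt_of_le_of_ne ?_ fun h5 => f0 (LinearMap.ext fun w => ?_)
    · rintro _ ⟨w, rfl⟩
      exact ⟨e w, LinearMap.congr_fun g1 w⟩
    · obtain ⟨z, hz⟩ : f w ∈ LinearMap.range e := h5 ▸ ⟨f w, LinearMap.congr_fun g2 w⟩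
      have h6 : e (f w) = 0 := LinearMap.congr_fun f1 w
      rw [← hz] at h6 ⊢
      exact (LinearMap.congr_fun hee z).symm.trans h6
  exact absurd (Submodule.finrank_lt_finrank_of_lt h4) (not_lt.2 h3)

omit [FiniteDimensional k M] in
theorem std_span {ι : Type} (v : ι → End k M) (hv : Submodule.span k (Set.range v) = ⊤) {r : ℕ}
    (h : ∀ g : Fin r → ι, ∑ σ : Equiv.Perm (Fin r),
      Equiv.Perm.sign σ • (List.ofFn fun i => v (g (σ i))).prod = 0) (x : Fin r → End k M) :
    ∑ σ : Equiv.Perm (Fin r), Equiv.Perm.sign σ • (List.ofFn fun i => x (σ i)).prod = 0 := by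
  let F := MultilinearMap.alternatization (MultilinearMap.mkPiAlgebraFin k r (End k M))
  have hF : ∀ x : Fin r → End k M, F x = ∑ σ : Equiv.Perm (Fin r),
      Equiv.Perm.sign σ • (List.ofFn fun i => x (σ i)).prod := fun x =>
    MultilinearMap.alternatization_apply _ x
  obtain ⟨s, h1, h2, h3⟩ := exists_linearIndependent k (Set.range v)
  let b := Basis.mk h3 (by rw [Subtype.range_coe_subtype, Set.ofPred_mem_eq, h2, hv])
  have h4 : F.toMultilinearMap = 0 := Basis.ext_multilinear (fun _ => b) fun w => by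
    choose g hg using fun i => h1 (w i).2
    have h5 : (fun i => b (w i)) = fun i => v (g i) := funext fun i => by
      rw [hg, Basis.mk_apply]
    rw [h5]
    exact (hF _).trans (h g)
  exact (hF x).symm.trans (MultilinearMap.congr_fun h4 x)

end Idem

theorem idem : AiApi → SFinR → SStd → SIdem := by
  intro hA hF hS p hp H M _ _ _ ρ n hH hρ hn
  have hM : FiniteDimensional (Kp p) M := Module.finite_of_finrank_pos (by omega)
  let π : MonoidAlgebra (ZMod p) H →+* End (Kp p) M :=
    (ρ.asAlgebraHom : MonoidAlgebra (Kp p) H →+* End (Kp p) M).comp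
      (MonoidAlgebra.mapRingHom H (algebraMap (ZMod p) (Kp p)))
  have hπ : ∀ g c, π (MonoidAlgebra.single g c) = algebraMap (ZMod p) (Kp p) c • ρ g := fun g c => by
    change ρ.asAlgebraHom (MonoidAlgebra.mapRingHom H _ _) = _
    rw [MonoidAlgebra.mapRingHom_single, Representation.asAlgebraHom_single]
  have hπ1 : ∀ g, π (MonoidAlgebra.single g 1) = ρ g := fun g => by rw [hπ, map_one, one_smul]
  have hπ2 : ∀ x u, π x u = x.coeff.sum fun a c => algebraMap (ZMod p) (Kp p) c • ρ a u := by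
    intro x u
    induction x using MonoidAlgebra.induction_linear with
    | zero => simp
    | add x y hx hy =>
      rw [map_add, LinearMap.add_apply, hx, hy, MonoidAlgebra.coeff_add, Finsupp.sum_add_index']
      · intro a; rw [map_zero, zero_smul]
      · intro a b c; rw [map_add, add_smul]
    | single g c =>
      rw [hπ, MonoidAlgebra.coeff_single, Finsupp.sum_single_index (by rw [map_zero, zero_smul])]
      rfl
  let I : Set (MonoidAlgebra (ZMod p) H) := {x | ∀ (K : Type) [Field K] [Algebra (ZMod p) K]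
    (τ : H →* Matrix (Fin n) (Fin n) K), act (ZMod p) τ x = 0}
  have hspan := hA.span (Kp p) H M ρ hM hρ
  have hfin : (Set.range π).Finite := by
    let A := AddSubgroup.closure (Set.range ρ)
    have : AddGroup.FG A := (AddGroup.fg_iff_addSubgroup_fg _).2
      ((AddSubgroup.fg_iff _).2 ⟨_, rfl, hF p H M ρ hH hM⟩)
    have : Finite A := AddCommGroup.finite_of_fg_isAddTorsion _ fun a =>
      isOfFinAddOrder_iff_nsmul_eq_zero.2 ⟨p, hp.out.pos, Subtype.ext (by
        change p • (a : End (Kp p) M) = 0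
        rw [← Nat.cast_smul_eq_nsmul (Kp p), CharP.cast_eq_zero, zero_smul])⟩
    refine (Set.toFinite (A : Set (End (Kp p) M))).subset ?_
    rintro _ ⟨x, rfl⟩
    induction x using MonoidAlgebra.induction_linear with
    | zero => rw [map_zero]; exact A.zero_mem
    | add x y hx hy => rw [map_add]; exact A.add_mem hx hy
    | single g c =>
      obtain ⟨c, rfl⟩ := ZMod.natCast_zmod_surjective c
      rw [hπ, map_natCast, Nat.cast_smul_eq_nsmul]
      exact A.nsmul_mem (AddSubgroup.subset_closure ⟨g, rfl⟩) c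
  have h1 : (1 : End (Kp p) M) ∈ π '' I := by
    refine Idem.one_mem ρ hspan _ (hfin.subset (Set.image_subset_range _ _))
      ⟨0, fun K _ _ τ => map_zero _, map_zero _⟩ ?_ ?_ ?_ ?_ ?_
    · rintro _ ⟨x, hx, rfl⟩ _ ⟨y, hy, rfl⟩
      exact ⟨x + y, fun K _ _ τ => by rw [map_add, hx K τ, hy K τ, add_zero], map_add _ _ _⟩
    · rintro _ ⟨x, hx, rfl⟩ _ ⟨y, hy, rfl⟩
      exact ⟨x - y, fun K _ _ τ => by rw [map_sub, hx K τ, hy K τ, sub_zero], map_sub _ _ _⟩
    · rintro _ ⟨x, hx, rfl⟩ _ ⟨y, -, rfl⟩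
      exact ⟨x * y, fun K _ _ τ => by rw [map_mul, hx K τ, zero_mul], map_mul _ _ _⟩
    · rintro _ ⟨x, hx, rfl⟩ g h
      exact ⟨MonoidAlgebra.single g 1 * x * MonoidAlgebra.single h 1,
        fun K _ _ τ => by rw [map_mul, map_mul, hx K τ, mul_zero, zero_mul],
        by rw [map_mul, map_mul, hπ1, hπ1]⟩
    · by_contra hcon
      push Not at hcon
      obtain ⟨x, hx⟩ := hS (Kp p) M _ hn
      refine hx (Idem.std_span ρ hspan (fun g => hcon _ ⟨∑ σ : Equiv.Perm (Fin (n ^ 2 + 1)),
        Equiv.Perm.sign σ • (List.ofFn fun i => MonoidAlgebra.single (g (σ i)) 1).prod,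
        fun K _ _ τ => ?_, ?_⟩) x)
      · refine Eq.trans ?_ (std_zero (K := K) (A := Matrix (Fin n) (Fin n) K) (k := n ^ 2 + 1)
          (by rw [Module.finrank_matrix]; simp [sq]) fun i => τ (g i))
        rw [map_sum]
        refine Finset.sum_congr rfl fun σ _ => ?_
        rw [Units.smul_def, map_zsmul, map_list_prod, List.map_ofFn, Units.smul_def]
        congr 3
        exact funext fun i => act_single_one τ _
      · rw [map_sum]
        refine Finset.sum_congr rfl fun σ _ => ?_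
        rw [Units.smul_def, map_zsmul, map_list_prod, List.map_ofFn, Units.smul_def]
        congr 3
        exact funext fun i => hπ1 _
  obtain ⟨x, hx, e⟩ := h1
  exact ⟨x, fun u => by rw [← hπ2, e]; rfl, hx⟩

end Pool.Agent.MP_6a4325_al.H84
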