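import Pool.Agent.MP_6a4325_al.H84.Spec3

/-!
Row JH: the total dimension of the composition factors with dimension in a given set.
-/

set_option autoImplicit false

namespace Pool.Agent.MP_6a4325_al.H84

open Pool.Agent.MP_6a4325_al.H62 Module

namespace Jh

variable {k G M M' : Type} [Field k] [Group G] [AddCommGroup M] [Module k M] [AddCommGroup M']
  [Module k M']

/-- one step of a chain -/
def Stp (ρ : Representation k G M) (A : Set ℕ) (V V' : Submodule k M) (c : ℕ) : Prop :=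
  Inv ρ V ∧ Inv ρ V' ∧ V ≤ V' ∧ (c = 0 ∨ ((∀ X, Inv ρ X → V ≤ X → X ≤ V' → X = V ∨ X = V') ∧
    finrank k V + c = finrank k V' ∧ c ∈ A))

/-- chains with weights -/
inductive Ch (ρ : Representation k G M) (A : Set ℕ) (U : Submodule k M) :
    Submodule k M → ℕ → Prop
  | refl : Ch ρ A U U 0
  | step {V V' : Submodule k M} {n c : ℕ} : Ch ρ A U V n → Stp ρ A V V' c → Ch ρ A U V' (n + c)

variable {ρ : Representation k G M} {ρ' : Representation k G M'} {A : Set ℕ}

theorem inv_inf {U V : Submodule k M} (hU : Inv ρ U) (hV : Inv ρ V) : Inv ρ (U ⊓ V) :=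
  fun g u hu => ⟨hU g u hu.1, hV g u hu.2⟩

theorem inv_sup {U V : Submodule k M} (hU : Inv ρ U) (hV : Inv ρ V) : Inv ρ (U ⊔ V) := by
  intro g u hu
  obtain ⟨a, ha, b, hb, rfl⟩ := Submodule.mem_sup.1 hu
  rw [map_add]
  exact Submodule.add_mem_sup (hU g a ha) (hV g b hb)

theorem Ch.le {U V : Submodule k M} {n : ℕ} (h : Ch ρ A U V n) : U ≤ V := by
  induction h with
  | refl => exact le_rfl
  | step _ h2 ih => exact ih.trans h2.2.2.1

theorem Ch.bound [FiniteDimensional k M] {U V : Submodule k M} {n : ℕ} (h : Ch ρ A U V n) :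
    n ≤ finrank k V := by
  induction h with
  | refl => exact Nat.zero_le _
  | step _ h2 ih =>
    obtain ⟨-, -, h3, h4 | h4⟩ := h2
    · rw [h4]; exact ih.trans (Submodule.finrank_mono h3)
    · omega

theorem Ch.trans {U V X : Submodule k M} {a b : ℕ} (h : Ch ρ A U V a) (h' : Ch ρ A V X b) :
    Ch ρ A U X (a + b) := by
  induction h' with
  | refl => exact h
  | step _ h2 ih => rw [← add_assoc]; exact ih.step h2

theorem Stp.split [FiniteDimensional k M] {N V V' : Submodule k M} {c : ℕ} (hN : Inv ρ N)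
    (h : Stp ρ A V V' c) :
    ∃ a b, c = a + b ∧ Stp ρ A (V ⊓ N) (V' ⊓ N) a ∧ Stp ρ A (V ⊔ N) (V' ⊔ N) b := by
  obtain ⟨h1, h2, h3, h4 | ⟨h4, h5, h6⟩⟩ := h
  · exact ⟨0, 0, h4, ⟨inv_inf h1 hN, inv_inf h2 hN, inf_le_inf_right N h3, Or.inl rfl⟩,
      ⟨inv_sup h1 hN, inv_sup h2 hN, sup_le_sup_right h3 N, Or.inl rfl⟩⟩
  have e1 := Submodule.finrank_sup_add_finrank_inf_eq V N
  have e2 := Submodule.finrank_sup_add_finrank_inf_eq V' N
  rcases h4 (V ⊔ V' ⊓ N) (inv_sup h1 (inv_inf h2 hN)) le_sup_left (sup_le h3 inf_le_left) with e | e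
  · have e3 : V' ⊓ N = V ⊓ N :=
      le_antisymm (le_inf (le_sup_right.trans e.le) inf_le_right) (inf_le_inf_right N h3)
    refine ⟨0, c, (zero_add c).symm,
      ⟨inv_inf h1 hN, inv_inf h2 hN, inf_le_inf_right N h3, Or.inl rfl⟩,
      ⟨inv_sup h1 hN, inv_sup h2 hN, sup_le_sup_right h3 N, Or.inr ⟨fun Y hY y1 y2 => ?_, ?_, h6⟩⟩⟩
    · rcases h4 (V' ⊓ Y) (inv_inf h2 hY) (le_inf h3 (le_sup_left.trans y1)) inf_le_left with e' | e'
      · left
        have e4 : (N ⊔ V') ⊓ Y = N ⊔ V' ⊓ Y := sup_inf_assoc_of_le V' (le_sup_right.trans y1)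
        rw [e', inf_eq_right.2 (y2.trans (sup_comm V' N).le)] at e4
        rw [e4, sup_comm]
      · right
        exact le_antisymm y2 (sup_le (e'.ge.trans inf_le_right) (le_sup_right.trans y1))
    · rw [e3] at e2
      omega
  · have e3 : V' ⊔ N = V ⊔ N :=
      le_antisymm (sup_le (e.ge.trans (sup_le_sup_left inf_le_right V)) le_sup_right)
        (sup_le_sup_right h3 N)
    refine ⟨c, 0, rfl,
      ⟨inv_inf h1 hN, inv_inf h2 hN, inf_le_inf_right N h3, Or.inr ⟨fun Y hY y1 y2 => ?_, ?_, h6⟩⟩,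
      ⟨inv_sup h1 hN, inv_sup h2 hN, sup_le_sup_right h3 N, Or.inl rfl⟩⟩
    · rcases h4 (Y ⊔ V) (inv_sup hY h1) le_sup_right (sup_le (y2.trans inf_le_left) h3) with e' | e'
      · left
        exact le_antisymm (le_inf (le_sup_left.trans e'.le) (y2.trans inf_le_right)) y1
      · right
        have e4 : (Y ⊔ V) ⊓ N = Y ⊔ V ⊓ N := sup_inf_assoc_of_le V (y2.trans inf_le_right)
        rw [e', sup_eq_left.2 y1] at e4
        exact e4.symm
    · rw [e3] at e2
      omega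

theorem Ch.split [FiniteDimensional k M] {N U V : Submodule k M} {n : ℕ} (hN : Inv ρ N)
    (h : Ch ρ A U V n) :
    ∃ a b, n = a + b ∧ Ch ρ A (U ⊓ N) (V ⊓ N) a ∧ Ch ρ A (U ⊔ N) (V ⊔ N) b := by
  induction h with
  | refl => exact ⟨0, 0, rfl, Ch.refl, Ch.refl⟩
  | step _ h2 ih =>
    obtain ⟨a, b, e, h3, h4⟩ := ih
    obtain ⟨a', b', e', h5, h6⟩ := h2.split hN
    exact ⟨a + a', b + b', by omega, h3.step h5, h4.step h6⟩

theorem Ch.transport (Φ : Submodule k M → Submodule k M') (D : Submodule k M → Prop)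
    (hI : ∀ X, Inv ρ X → Inv ρ' (Φ X)) (hm : Monotone Φ) (c₀ c₁ : ℕ)
    (hr : ∀ X, D X → finrank k (Φ X) + c₀ = finrank k X + c₁)
    (hs : ∀ V V' Y, D V → D V' → Inv ρ' Y → Φ V ≤ Y → Y ≤ Φ V' →
      ∃ X, Inv ρ X ∧ V ≤ X ∧ X ≤ V' ∧ Φ X = Y)
    {U V : Submodule k M} {n : ℕ} (h : Ch ρ A U V n) (hD : ∀ X, U ≤ X → X ≤ V → D X) :
    Ch ρ' A (Φ U) (Φ V) n := by
  induction h with
  | refl => exact Ch.refl
  | @step V V' n c h1 h2 ih =>
    obtain ⟨h3, h4, h5, h6⟩ := h2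
    have d1 := hD V h1.le h5
    have d2 := hD V' (h1.le.trans h5) le_rfl
    refine (ih fun X x1 x2 => hD X x1 (x2.trans h5)).step
      ⟨hI V h3, hI V' h4, hm h5, h6.imp_right fun ⟨h7, h8, h9⟩ => ⟨fun Y hY y1 y2 => ?_, ?_, h9⟩⟩
    · obtain ⟨X, x1, x2, x3, rfl⟩ := hs V V' Y d1 d2 hY y1 y2
      exact (h7 X x1 x2 x3).imp (congrArg Φ) (congrArg Φ)
    · have e1 := hr V d1
      have e2 := hr V' d2
      omega

theorem inv_map {f : M →ₗ[k] M'} (hf : Eqv (MonoidHom.id G) ρ ρ' f) (X : Submodule k M)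
    (h : Inv ρ X) : Inv ρ' (X.map f) := by
  rintro g _ ⟨u, hu, rfl⟩
  exact ⟨ρ g u, h g u hu, hf g u⟩

theorem inv_comap {f : M →ₗ[k] M'} (hf : Eqv (MonoidHom.id G) ρ ρ' f) (X : Submodule k M')
    (h : Inv ρ' X) : Inv ρ (X.comap f) := fun g u hu => by
  change f (ρ g u) ∈ X
  rw [hf g u]
  exact h g _ hu

theorem rk_map [FiniteDimensional k M] (g : M →ₗ[k] M') (X : Submodule k M)
    (h : LinearMap.ker g ≤ X) :
    finrank k (X.map g) + finrank k (LinearMap.ker g) = finrank k X := by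
  have h1 := LinearMap.finrank_range_add_finrank_ker (g.domRestrict X)
  rw [LinearMap.range_domRestrict, LinearMap.ker_domRestrict,
    (Submodule.comapSubtypeEquivOfLe h).finrank_eq] at h1
  exact h1

theorem rk_inj {f : M →ₗ[k] M'} (hf : Function.Injective f) (X : Submodule k M) :
    finrank k (X.map f) = finrank k X :=
  (Submodule.equivMapOfInjective f hf X).finrank_eq.symm

theorem Ch.map_inj {f : M →ₗ[k] M'} (hf : Function.Injective f)
    (he : Eqv (MonoidHom.id G) ρ ρ' f) {n : ℕ} (h : Ch ρ A ⊥ ⊤ n) :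
    Ch ρ' A ⊥ (LinearMap.range f) n := by
  have h1 := h.transport (ρ' := ρ') (Submodule.map f) (fun _ => True) (inv_map he)
    (fun _ _ => Submodule.map_mono) 0 0 (fun X _ => by rw [rk_inj hf])
    (fun V V' Y _ _ hY y1 y2 => ⟨Y.comap f, inv_comap he Y hY, Submodule.map_le_iff_le_comap.1 y1,
      (Submodule.comap_mono y2).trans (Submodule.comap_map_eq_of_injective hf V').le,
      Submodule.map_comap_eq_self (y2.trans LinearMap.map_le_range)⟩) fun _ _ _ => trivial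
  rwa [Submodule.map_bot, Submodule.map_top] at h1

theorem Ch.comap_inj {f : M →ₗ[k] M'} (hf : Function.Injective f)
    (he : Eqv (MonoidHom.id G) ρ ρ' f) {n : ℕ} (h : Ch ρ' A ⊥ (LinearMap.range f) n) :
    Ch ρ A ⊥ ⊤ n := by
  have h1 := h.transport (ρ' := ρ) (Submodule.comap f) (fun X => X ≤ LinearMap.range f)
    (inv_comap he) (fun _ _ => Submodule.comap_mono) 0 0
    (fun X hX => by rw [← rk_inj hf, Submodule.map_comap_eq_self hX])
    (fun V V' Y d1 _ hY y1 y2 => ⟨Y.map f, inv_map he Y hY,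
      (Submodule.map_comap_eq_self d1).ge.trans (Submodule.map_mono y1),
      Submodule.map_le_iff_le_comap.2 y2, Submodule.comap_map_eq_of_injective hf Y⟩)
    fun _ _ h => h
  rwa [Submodule.comap_bot, LinearMap.ker_eq_bot.2 hf, ← Submodule.map_top,
    Submodule.comap_map_eq_of_injective hf] at h1

theorem Ch.map_surj [FiniteDimensional k M] {g : M →ₗ[k] M'} (hg : Function.Surjective g)
    (he : Eqv (MonoidHom.id G) ρ ρ' g) {n : ℕ} (h : Ch ρ A (LinearMap.ker g) ⊤ n) :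
    Ch ρ' A ⊥ ⊤ n := by
  have h1 := h.transport (ρ' := ρ') (Submodule.map g) (fun X => LinearMap.ker g ≤ X)
    (inv_map he) (fun _ _ => Submodule.map_mono) (finrank k (LinearMap.ker g)) 0
    (fun X hX => rk_map g X hX)
    (fun V V' Y _ d2 hY y1 y2 => ⟨Y.comap g, inv_comap he Y hY, Submodule.map_le_iff_le_comap.1 y1,
      (Submodule.comap_mono y2).trans (Submodule.comap_map_eq_self d2).le,
      Submodule.map_comap_eq_of_surjective hg Y⟩) fun _ h _ => h
  rwa [Submodule.map_top, LinearMap.range_eq_top.2 hg,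
    le_bot_iff.1 (Submodule.map_le_iff_le_comap.2 (Submodule.comap_bot g).ge)] at h1

theorem Ch.comap_surj [FiniteDimensional k M] {g : M →ₗ[k] M'} (hg : Function.Surjective g)
    (he : Eqv (MonoidHom.id G) ρ ρ' g) {n : ℕ} (h : Ch ρ' A ⊥ ⊤ n) :
    Ch ρ A (LinearMap.ker g) ⊤ n := by
  have h1 := h.transport (ρ' := ρ) (Submodule.comap g) (fun _ => True)
    (inv_comap he) (fun _ _ => Submodule.comap_mono) 0 (finrank k (LinearMap.ker g))
    (fun X _ => by
      rw [← rk_map g (X.comap g) (LinearMap.ker_le_comap g),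
        Submodule.map_comap_eq_of_surjective hg, add_zero])
    (fun V V' Y _ _ hY y1 y2 => ⟨Y.map g, inv_map he Y hY,
      (Submodule.map_comap_eq_of_surjective hg V).ge.trans (Submodule.map_mono y1),
      Submodule.map_le_iff_le_comap.2 y2,
      Submodule.comap_map_eq_self ((LinearMap.ker_le_comap g).trans y1)⟩) fun _ _ _ => trivial
  rwa [Submodule.comap_bot, Submodule.comap_top] at h1

theorem inv_bot : Inv ρ ⊥ := fun g u hu => by
  rw [(Submodule.mem_bot k).1 hu, map_zero]; exact zero_mem _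

theorem ch_zero (ρ : Representation k G M) (A : Set ℕ) : Ch ρ A ⊥ ⊤ 0 :=
  Ch.refl.step (c := 0) ⟨inv_bot, fun _ _ _ => trivial, bot_le, Or.inl rfl⟩

theorem bdd [FiniteDimensional k M] (ρ : Representation k G M) (A : Set ℕ) :
    BddAbove {n | Ch ρ A ⊥ ⊤ n} := ⟨_, fun _ h => Ch.bound h⟩

theorem ch_sup [FiniteDimensional k M] (ρ : Representation k G M) (A : Set ℕ) :
    Ch ρ A ⊥ ⊤ (sSup {n | Ch ρ A ⊥ ⊤ n}) :=
  Nat.sSup_mem (s := {n | Ch ρ A ⊥ ⊤ n}) ⟨0, ch_zero ρ A⟩ (bdd ρ A)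

theorem Ch.irr [FiniteDimensional k M] (hρ : Irr ρ) {V : Submodule k M} {n : ℕ}
    (h : Ch ρ A ⊥ V n) : n = 0 ∨ finrank k M ∈ A := by
  induction h with
  | refl => exact Or.inl rfl
  | @step V V' n c _ h2 ih =>
    obtain ⟨h3, h4, -, h6 | ⟨-, h6, h7⟩⟩ := h2
    · exact ih.imp_left fun e => by omega
    · refine ih.elim (fun e => ?_) Or.inr
      rcases hρ.2 V h3 with rfl | rfl <;> rcases hρ.2 V' h4 with rfl | rfl
      · left; omega
      · right
        rw [finrank_bot, finrank_top, zero_add] at h6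
        exact h6 ▸ h7
      · left
        rw [finrank_bot] at h6
        omega
      · left; omega

end Jh

open Jh in
theorem jh : SJH := by
  intro k G _ _ A
  refine ⟨fun M _ _ ρ => sSup {n | Ch ρ A ⊥ ⊤ n}, ?_, ?_⟩
  · intro M₁ M M₂ _ _ _ _ _ _ ρ₁ ρ ρ₂ hM ⟨f, g, hf, hg, hfg, e₁, e₂⟩
    have : FiniteDimensional k M₁ := FiniteDimensional.of_injective f hf
    have : FiniteDimensional k M₂ := Module.Finite.of_surjective g hg
    refine le_antisymm ?_ ?_
    · obtain ⟨a, b, e, h1, h2⟩ := (ch_sup ρ A).split (N := LinearMap.range f)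
        (by rw [← Submodule.map_top]; exact inv_map e₁ ⊤ fun _ _ _ => trivial)
      rw [bot_inf_eq, top_inf_eq] at h1
      rw [bot_sup_eq, top_sup_eq, hfg] at h2
      exact e.le.trans (add_le_add (le_csSup (bdd ρ₁ A) (h1.comap_inj hf e₁))
        (le_csSup (bdd ρ₂ A) (h2.map_surj hg e₂)))
    · exact le_csSup (bdd ρ A) (((ch_sup ρ₁ A).map_inj hf e₁).trans
        (hfg ▸ (ch_sup ρ₂ A).comap_surj hg e₂))
  · intro M _ _ ρ hM hρ
    refine ⟨fun h => le_antisymm ((ch_sup ρ A).bound.trans (finrank_top k M).le) ?_,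
      fun h => ((ch_sup ρ A).irr hρ).resolve_right h⟩
    refine le_csSup (bdd ρ A) ?_
    have h1 : Ch ρ A ⊥ ⊤ (0 + finrank k M) := Ch.refl.step ⟨inv_bot, fun _ _ _ => trivial, bot_le,
      Or.inr ⟨fun X hX _ _ => hρ.2 X hX, by rw [finrank_bot, finrank_top, zero_add], h⟩⟩
    rwa [zero_add] at h1

end Pool.Agent.MP_6a4325_al.H84
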