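import Pool.Agent.MP_6a4325_al.H84.Asm3
import Pool.Agent.MP_6a4325_al.H84.Jh3
import Pool.Agent.MP_6a4325_al.H84.Idem3
import Pool.Agent.MP_6a4325_al.H41.Conn3
import Pool.Agent.MP_6a4325_al.H41.Cen3
import Pool.Agent.MP_6a4325_al.H50.Keyt3
import Pool.Agent.MP_6a4325_al.H65.Diag3
import Pool.Agent.MP_6a4325_al.H65.Ws33
import Pool.Agent.MP_6a4325_al.H79.Ext03
import Pool.Agent.MP_6a4325_al.H94.Tens3
import Pool.Agent.MP_6a4325_al.H36.Perf3
import Pool.Agent.MP_6a4325_al.H73.Desc3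
import Pool.Agent.MP_6a4325_al.H81.Stab3
import Pool.Agent.MP_6a4325_al.H14.Homx3
import Pool.Agent.MP_6a4325_al.H1.Fix3
import Pool.Agent.MP_6a4325_al.H92.Val3
import Pool.Agent.MP_6a4325_al.H16.Plb3
import Pool.Agent.MP_6a4325_al.H93.Bnd3
import Pool.Agent.MP_6a4325_al.H10.Ext3
import Pool.Agent.MP_6a4325_al.H37.Wt3
import Pool.Agent.MP_6a4325_al.H71.Bigr3
import Pool.Agent.MP_6a4325_al.H62.Minb3
import Pool.Agent.MP_6a4325_al.H17.Eal3
import Pool.Agent.MP_6a4325_al.H97.Indp3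
import Pool.Agent.MP_6a4325_al.H75.One3
import Pool.Agent.MP_6a4325_al.H67.Reg3
import Pool.Agent.MP_6a4325_al.H54.Gap3
import Pool.Agent.MP_6a4325_al.H58.Finr3
import Pool.Agent.MP_6a4325_al.H48.Aia3
import Pool.Agent.MP_6a4325_al.H55.Spc3
import Pool.Agent.MP_6a4325_al.H57.Chi3
import Pool.Agent.MP_6a4325_al.H49.Hl3
import Pool.Agent.MP_6a4325_al.H95.Fun3
import Pool.Agent.MP_6a4325_al.H90.Ga23
import Pool.Agent.MP_6a4325_al.H70.Del3
import Pool.Agent.MP_6a4325_al.H22.Ga13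
import Pool.Agent.MP_6a4325_al.H86.Fx3
import Pool.Agent.MP_6a4325_al.H83.Bd23

/-!
The classification of the elementary amenable groups with property (Z).
-/

set_option autoImplicit false

namespace Pool.Agent.MP_6a4325_al.H84

open Pool.Agent.MP_6a4325_al.H62

theorem tPv : SPv := H90.pv H22.vsApi op

theorem tStab : SStab := H81.stab tFdl (idem H48.aiApi H58.finR H58.std)

theorem tFx : SFx := H86.fx H95.sup3 H58.finR tStab

theorem tCnt : SCnt :=
  H93.cnt jh H97.ssum (H14.homX H97.smin H97.indP) H67.sreg (H1.sfix H97.indP)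

theorem tFrob : SFrob := H36.frob H73.descRow.1 (H36.perf H73.descRow.1 H73.descRow.2)

theorem tBd2 : SBd2 := H83.bd2 H48.aiApi H95.sup3
  (H65.diag H48.aiApi H97.smin H41.conn (H75.one3 H48.aiApi tFrob)) (H94.tens H48.aiApi H50.keyT)

theorem tLft : SLft := lft H22.vsApi (H93.bnd H22.vsApi H95.sup3 tStab tFx tCnt)
  (H55.spc H48.aiApi) tBd2 (H55.last3 H48.aiApi tFdl)

theorem tLfd : SLfd := lfd H22.vsApi tPv tLft

theorem tExt3 : SExt3 :=
  H10.ext3 H22.vsApi tPv op (H79.ext0 H22.vsApi tPv op tCLt tALT tGenC minB)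

theorem tCen : SCen := H41.cen (H37.wt H95.sfun) H57.chi

theorem tMain : SMain := main3 H22.vsApi tPv tFx (H71.bigR H22.vsApi H95.sfun H54.gap) H71.qfb
  (H70.del (H92.val tPC H22.vsApi tPoly H57.pln tCen) tCen)
  (H49.hl tPC H22.vsApi tPoly (H40.pl tPC tPl0) H16.plb tLft tLfd tExt3) tLfd tExt3

theorem ea_classification (F G : Type) [Field F] [Group G] (hG : EA G) :
    PropZ F G ↔ Cond (ringExpChar F) F G :=
  classif3 H22.vsApi tMain (H17.eal tPC H22.vsApi tPoly (H1.hnn specF)) H65.eaf H65.ws3 F G hG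

end Pool.Agent.MP_6a4325_al.H84
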