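import Pool.Agent.MP_6a4325_al.H62.Base2

/-!
Notions and steps for the classification of the elementary amenable groups with property (Z)
(see the plan file `MP_6a4325_H84_plan3.md` in the team store).
-/

set_option autoImplicit false

namespace Pool.Agent.MP_6a4325_al.H84

open Pool.Agent.MP_6a4325_al.H62 Matrix

/-! ### classes of groups -/

/-- soluble-by-finite -/
def VS (G : Type) [Group G] : Prop := ∃ N : Subgroup G, N.FiniteIndex ∧ Group.IsSolvable N

/-- polycyclic-by-finite -/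
def NVS (G : Type) [Group G] : Prop := (∀ K : Subgroup G, K.FG) ∧ VS G

/-- locally polycyclic-by-finite -/
def LP (G : Type) [Group G] : Prop := ∀ H : Subgroup G, H.FG → NVS H

/-- locally finite -/
def LF (G : Type) [Group G] : Prop := ∀ H : Subgroup G, H.FG → Finite H

/-- `p`-group by soluble by finite -/
def PVS (p : ℕ) (G : Type) [Group G] : Prop :=
  ∃ (N : Subgroup G) (d : ℕ), N.FiniteIndex ∧ IsPGroup p (derivedSeries N d)

/-! ### representations -/

section Rep

variable {k : Type} [Field k]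

/-- an equivariant linear map -/
def Eqv {A B M U : Type} [Group A] [Group B] [AddCommGroup M] [Module k M] [AddCommGroup U]
    [Module k U] (f : A →* B) (ρ : Representation k A M) (σ : Representation k B U)
    (φ : M →ₗ[k] U) : Prop :=
  ∀ a u, φ (ρ a u) = σ (f a) (φ u)

/-- a short exact sequence -/
def Ses {G M₁ M M₂ : Type} [Group G] [AddCommGroup M₁] [Module k M₁] [AddCommGroup M] [Module k M]
    [AddCommGroup M₂] [Module k M₂] (ρ₁ : Representation k G M₁) (ρ : Representation k G M)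
    (ρ₂ : Representation k G M₂) : Prop :=
  ∃ (f : M₁ →ₗ[k] M) (g : M →ₗ[k] M₂), Function.Injective f ∧ Function.Surjective g ∧
    LinearMap.range f = LinearMap.ker g ∧ Eqv (MonoidHom.id G) ρ₁ ρ f ∧ Eqv (MonoidHom.id G) ρ ρ₂ g

/-- every irreducible extension to a finitely generated overgroup lives on the same space -/
def Stab {G M : Type} [Group G] [AddCommGroup M] [Module k M] (H : Subgroup G)
    (ρ : Representation k H M) : Prop :=
  ∀ (L : Subgroup G) (h : H ≤ L), L.FG → ∀ (U : Type) [AddCommGroup U] [Module k U]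
    (σ : Representation k L U) (φ : M →ₗ[k] U), Irr σ → φ ≠ 0 →
    Eqv (Subgroup.inclusion h) ρ σ φ → Function.Surjective φ

end Rep

/-- irreducible representations with a vector fixed by `E` have dimension at most `D` -/
def Fb (k : Type) [Field k] {L : Type} [Group L] (E : Subgroup L) (D : ℕ) : Prop :=
  ∀ (T : Type) [AddCommGroup T] [Module k T] (σ : Representation k L T), Irr σ → ∀ t : T, t ≠ 0 →
    (∀ e ∈ E, σ e t = t) → FiniteDimensional k T ∧ Module.finrank k T ≤ D

/-- `K` acts trivially in the irreducible representations with a vector fixed by `E` -/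
def Ft (k : Type) [Field k] {L : Type} [Group L] (E K : Subgroup L) : Prop :=
  ∀ (T : Type) [AddCommGroup T] [Module k T] (σ : Representation k L T), Irr σ → ∀ t : T, t ≠ 0 →
    (∀ e ∈ E, σ e t = t) → ∀ g ∈ K, σ g = 1

/-- `Fb` in all finitely generated overgroups -/
def FbL (k : Type) [Field k] {G : Type} [Group G] (E : Subgroup G) (D : ℕ) : Prop :=
  ∀ L : Subgroup G, E ≤ L → L.FG → Fb k (E.subgroupOf L) D

/-- `Ft` in all finitely generated overgroups -/
def FtL (k : Type) [Field k] {G : Type} [Group G] (E K : Subgroup G) : Prop :=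
  ∀ L : Subgroup G, E ≤ L → L.FG → Ft k (E.subgroupOf L) (K.subgroupOf L)

/-- numerical functions of representations -/
def RepFun (k G : Type) [Field k] [Group G] : Type 1 :=
  ∀ (M : Type) [AddCommGroup M] [Module k M], Representation k G M → ℕ

/-- additive in short exact sequences -/
def AddF {k G : Type} [Field k] [Group G] (s : RepFun k G) : Prop :=
  ∀ (M₁ M M₂ : Type) [AddCommGroup M₁] [Module k M₁] [AddCommGroup M] [Module k M]
    [AddCommGroup M₂] [Module k M₂] (ρ₁ : Representation k G M₁) (ρ : Representation k G M)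
    (ρ₂ : Representation k G M₂), FiniteDimensional k M → Ses ρ₁ ρ ρ₂ →
    s M ρ = s M₁ ρ₁ + s M₂ ρ₂

/-- the values at the irreducible representations -/
def SimF {k G : Type} [Field k] [Group G] (A : Set ℕ) (s : RepFun k G) : Prop :=
  ∀ (M : Type) [AddCommGroup M] [Module k M] (ρ : Representation k G M), FiniteDimensional k M →
    Irr ρ → (Module.finrank k M ∈ A → s M ρ = Module.finrank k M) ∧
      (Module.finrank k M ∉ A → s M ρ = 0)

/-- the regular representation on functions -/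
def reg (k L : Type) [Field k] [Group L] : Representation k L (L → k) where
  toFun g := LinearMap.funLeft k k fun x => x * g
  map_one' := LinearMap.ext fun f => funext fun x => congrArg f (mul_one x)
  map_mul' g h := LinearMap.ext fun f => funext fun x => congrArg f (mul_assoc x g h).symm

/-- absolutely irreducible (or zero dimensional): the matrices span the matrix algebra -/
def AI {G K ι : Type} [Group G] [Field K] [Fintype ι] [DecidableEq ι]
    (ρ : G →* Matrix ι ι K) : Prop :=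
  Submodule.span K (Set.range ρ) = ⊤

/-- the matrices of a representation in a basis -/
noncomputable def mat {G K M ι : Type} [Group G] [Field K] [AddCommGroup M] [Module K M]
    [Fintype ι] [DecidableEq ι] (b : Module.Basis ι K M) (ρ : Representation K G M) :
    G →* Matrix ι ι K :=
  (LinearMap.toMatrixAlgEquiv b : Module.End K M →* Matrix ι ι K).comp ρ

/-- the representation on column vectors -/
noncomputable def lin {G K ι : Type} [Group G] [Field K] [Fintype ι] [DecidableEq ι]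
    (ρ : G →* Matrix ι ι K) : Representation K G (ι → K) :=
  ((Matrix.toLinAlgEquiv' : Matrix ι ι K ≃ₐ[K] Module.End K (ι → K)) :
    Matrix ι ι K →* Module.End K (ι → K)).comp ρ

/-- the algebra of functions generated by the matrix coefficients -/
def cf {G K ι : Type} [Group G] [Field K] [Fintype ι] [DecidableEq ι] (ρ : G →* Matrix ι ι K) :
    Subalgebra K (G → K) :=
  Algebra.adjoin K (Set.range fun (ij : ι × ι) (g : G) => ρ g ij.1 ij.2)

/-- the absolutely irreducible representations in characteristic `p` have degree at most `D` -/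
def Bd (p : ℕ) (G : Type) [Group G] (D : ℕ) : Prop :=
  ∀ (K : Type) [Field K] [IsAlgClosed K] [CharP K p] (n : ℕ)
    (ρ : G →* Matrix (Fin n) (Fin n) K), AI ρ → n ≤ D

/-- the same for all subgroups -/
def BdA (p : ℕ) (G : Type) [Group G] (D : ℕ) : Prop := ∀ N : Subgroup G, Bd p N D

/-- the irreducible representations of the finitely generated subgroups over the closure of the
prime field have dimension at most `D` -/
def BdK (p : ℕ) [Fact p.Prime] (G : Type) [Group G] (D : ℕ) : Prop :=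
  ∀ L : Subgroup G, L.FG → ∀ (T : Type) [AddCommGroup T] [Module (Kp p) T]
    (σ : Representation (Kp p) L T), Irr σ → Module.finrank (Kp p) T ≤ D

theorem reg_apply {k L : Type} [Field k] [Group L] (g : L) (f : L → k) (x : L) :
    reg k L g f x = f (x * g) := rfl

theorem mat_apply {G K M ι : Type} [Group G] [Field K] [AddCommGroup M] [Module K M]
    [Fintype ι] [DecidableEq ι] (b : Module.Basis ι K M) (ρ : Representation K G M) (g : G) :
    mat b ρ g = LinearMap.toMatrix b b (ρ g) := rfl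

theorem lin_apply {G K ι : Type} [Group G] [Field K] [Fintype ι] [DecidableEq ι]
    (ρ : G →* Matrix ι ι K) (g : G) (v : ι → K) : lin ρ g v = ρ g *ᵥ v := rfl

/-! ### interfaces -/

/-- row GA1 -/
structure VsApi : Prop where
  inj : ∀ (G H : Type) [Group G] [Group H] (f : H →* G), Function.Injective f → VS G → VS H
  surj : ∀ (G Q : Type) [Group G] [Group Q] (f : G →* Q), Function.Surjective f → VS G → VS Q
  fin : ∀ (G : Type) [Group G] (K : Subgroup G), K.FiniteIndex → VS K → VS G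
  rad : ∀ (G : Type) [Group G] (N : Subgroup G), N.Normal → VS N →
    ∃ R : Subgroup G, R.Normal ∧ R ≤ N ∧ Group.IsSolvable R ∧ R.relIndex N ≠ 0
  cen : ∀ (G : Type) [Group G] (R N : Subgroup G), R.Normal → N.Normal → R.relIndex N ≠ 0 →
    ∃ C : Subgroup G, C.Normal ∧ C.FiniteIndex ∧ ∀ g ∈ C, ∀ x ∈ N, g * x * g⁻¹ * x⁻¹ ∈ R
  ext : ∀ (G : Type) [Group G] (N : Subgroup G) [N.Normal], VS N → VS (G ⧸ N) → VS G
  nInj : ∀ (G H : Type) [Group G] [Group H] (f : H →* G), Function.Injective f → NVS G → NVS H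
  nSurj : ∀ (G Q : Type) [Group G] [Group Q] (f : G →* Q), Function.Surjective f → NVS G → NVS Q
  nExt : ∀ (G : Type) [Group G] (N : Subgroup G) [N.Normal], NVS N → NVS (G ⧸ N) → NVS G
  nFin : ∀ (G : Type) [Group G], Finite G → NVS G
  nTor : ∀ (G : Type) [Group G], NVS G → (∀ g : G, IsOfFinOrder g) → Finite G
  lInj : ∀ (G H : Type) [Group G] [Group H] (f : H →* G), Function.Injective f → LP G → LP H
  lSurj : ∀ (G Q : Type) [Group G] [Group Q] (f : G →* Q), Function.Surjective f → LP G → LP Q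
  lNoeth : ∀ (G : Type) [Group G], LP G → LocNoeth G
  lfLp : ∀ (G : Type) [Group G], LF G → LP G
  lfInj : ∀ (G H : Type) [Group G] [Group H] (f : H →* G), Function.Injective f → LF G → LF H
  lfd : ∀ (G : Type) [Group G], LFD G → LF (commutator G)

/-- row GA2 -/
structure PvApi (p : ℕ) : Prop where
  inj : ∀ (G H : Type) [Group G] [Group H] (f : H →* G), Function.Injective f → PVS p G → PVS p H
  surj : ∀ (G Q : Type) [Group G] [Group Q] (f : G →* Q), Function.Surjective f → PVS p G →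
    PVS p Q
  fin : ∀ (G : Type) [Group G] (K : Subgroup G), K.FiniteIndex → PVS p K → PVS p G
  quot : ∀ (G Q : Type) [Group G] [Group Q] (f : G →* Q), Function.Surjective f →
    IsPGroup p f.ker → PVS p Q → PVS p G
  ofVS : ∀ (G : Type) [Group G], VS G → PVS p G
  norm : ∀ (G : Type) [Group G], PVS p G →
    ∃ (S : Subgroup G) (_ : S.Normal), IsPGroup p S ∧ VS (G ⧸ S)
  noP : ∀ (G : Type) [Group G] (N : Subgroup G), N.Normal → NoP p G → PVS p N → VS N
  ext : ∀ (G : Type) [Group G] (N : Subgroup G) [N.Normal], PVS p N → VS (G ⧸ N) → PVS p G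

/-- row GA2 -/
def SPv : Prop := ∀ (p : ℕ) [Fact p.Prime], PvApi p

/-- row AIA -/
structure AiApi : Prop where
  burn : ∀ (K G M ι : Type) [Field K] [IsAlgClosed K] [Group G] [AddCommGroup M] [Module K M]
    [Fintype ι] [DecidableEq ι] (b : Module.Basis ι K M) (ρ : Representation K G M), Irr ρ →
    AI (mat b ρ)
  span : ∀ (K G M : Type) [Field K] [IsAlgClosed K] [Group G] [AddCommGroup M] [Module K M]
    (ρ : Representation K G M), FiniteDimensional K M → Irr ρ →
    Submodule.span K (Set.range ρ) = ⊤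
  irr : ∀ (K G ι : Type) [Field K] [Group G] [Fintype ι] [DecidableEq ι] [Nonempty ι]
    (ρ : G →* Matrix ι ι K), AI ρ → Irr (lin ρ)
  conj : ∀ (K G ι κ : Type) [Field K] [Group G] [Fintype ι] [DecidableEq ι] [Fintype κ]
    [DecidableEq κ] (ρ : G →* Matrix ι ι K) (b : Module.Basis κ K (ι → K)), AI ρ →
    AI (mat b (lin ρ))
  li : ∀ (K G ι : Type) [Field K] [Group G] [Fintype ι] [DecidableEq ι] (ρ : G →* Matrix ι ι K),
    AI ρ ↔ LinearIndependent K fun (ij : ι × ι) (g : G) => ρ g ij.1 ij.2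
  map : ∀ (K K' G ι : Type) [Field K] [Field K'] [Group G] [Fintype ι] [DecidableEq ι]
    (ρ : G →* Matrix ι ι K) (σ : K →+* K'), AI ρ → AI (σ.mapMatrix.toMonoidHom.comp ρ)
  reindex : ∀ (K G ι κ : Type) [Field K] [Group G] [Fintype ι] [DecidableEq ι] [Fintype κ]
    [DecidableEq κ] (ρ : G →* Matrix ι ι K) (e : κ ≃ ι), AI ρ →
    ∃ ρ' : G →* Matrix κ κ K, AI ρ' ∧ ∀ g i j, ρ' g i j = ρ g (e i) (e j)
  common : ∀ (p : ℕ) [Fact p.Prime] (K₁ K₂ : Type) [Field K₁] [Field K₂] [CharP K₁ p] [CharP K₂ p],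
    ∃ (K : Type) (_ : Field K) (_ : IsAlgClosed K) (_ : CharP K p),
      Nonempty (K₁ →+* K) ∧ Nonempty (K₂ →+* K)

/-! ### irreducible solutions and stable pairs -/

/-- row FUN -/
def SFun : Prop := ∀ (k G E : Type) [Field k] [Group G] [AddCommGroup E] [Module k E] (ψ : G → E),
  (∃ g, ψ g ≠ 0) → ∃ (U : Type) (_ : AddCommGroup U) (_ : Module k U) (σ : Representation k G U)
    (u : U), Irr σ ∧ u ≠ 0 ∧ ∀ x : MonoidAlgebra k G,
      (∀ g, (x.coeff.sum fun a c => c • ψ (g * a)) = 0) → σ.asAlgebraHom x u = 0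

/-- row FUN -/
def SUp : Prop := ∀ (k A B M : Type) [Field k] [Group A] [Group B] [AddCommGroup M] [Module k M]
  (f : A →* B), Function.Injective f → ∀ ρ : Representation k A M, Irr ρ →
    ∃ (U : Type) (_ : AddCommGroup U) (_ : Module k U) (σ : Representation k B U)
      (φ : M →ₗ[k] U), Irr σ ∧ Function.Injective φ ∧ Eqv f ρ σ φ ∧
      (f.range.FiniteIndex → FiniteDimensional k M → FiniteDimensional k U)

/-- row FINR -/
def SFinR : Prop := ∀ (p : ℕ) [Fact p.Prime] (G M : Type) [Group G] [AddCommGroup M]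
  [Module (Kp p) M] (ρ : Representation (Kp p) G M), Group.FG G → FiniteDimensional (Kp p) M →
    (Set.range ρ).Finite

/-- row FINR: the standard polynomial does not vanish on large endomorphism rings -/
def SStd : Prop := ∀ (K M : Type) [Field K] [AddCommGroup M] [Module K M] (r : ℕ),
  r < Module.finrank K M → ∃ x : Fin r → Module.End K M,
    ∑ σ : Equiv.Perm (Fin r), Equiv.Perm.sign σ • (List.ofFn fun i => x (σ i)).prod ≠ 0

/-- in the assembly -/
def SFdl : Prop := ∀ (p : ℕ) [Fact p.Prime] (G : Type) [Group G], NVS G → FD (Kp p) G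

/-- in the assembly -/
def SPoly : Prop := ∀ (G : Type) [Group G], NVS G →
  ∃ N : Subgroup G, N.Normal ∧ N.FiniteIndex ∧ H62.Poly N

/-- row IDEM -/
def SIdem : Prop := ∀ (p : ℕ) [Fact p.Prime] (H M : Type) [Group H] [AddCommGroup M]
  [Module (Kp p) M] (ρ : Representation (Kp p) H M) (n : ℕ), Group.FG H → Irr ρ →
    n ^ 2 + 1 < Module.finrank (Kp p) M → ∃ x : MonoidAlgebra (ZMod p) H,
      (∀ u, (x.coeff.sum fun a c => algebraMap (ZMod p) (Kp p) c • ρ a u) = u) ∧
      ∀ (K : Type) [Field K] [Algebra (ZMod p) K] (τ : H →* Matrix (Fin n) (Fin n) K),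
        act (ZMod p) τ x = 0

/-- row STAB -/
def SStab : Prop := ∀ (p : ℕ) [Fact p.Prime] (G : Type) [Group G], LP G → W (ZMod p) G →
  ∀ (H₀ : Subgroup G), H₀.FG → ∀ (M₀ : Type) [AddCommGroup M₀] [Module (Kp p) M₀]
    (ρ₀ : Representation (Kp p) H₀ M₀), Irr ρ₀ →
    ∃ (H : Subgroup G) (M : Type) (_ : AddCommGroup M) (_ : Module (Kp p) M)
      (ρ : Representation (Kp p) H M), H.FG ∧ Irr ρ ∧ FiniteDimensional (Kp p) M ∧
      Module.finrank (Kp p) M₀ ≤ Module.finrank (Kp p) M ∧ Stab H ρ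

/-- row FX -/
def SFx : Prop := ∀ (p : ℕ) [Fact p.Prime] (G : Type) [Group G], LP G → W (ZMod p) G →
  ∃ (H K : Subgroup G) (D : ℕ), H.FG ∧ K ≤ H ∧ K.relIndex H ≠ 0 ∧ FbL (Kp p) H D ∧ FtL (Kp p) H K

/-! ### locally finite groups: the degrees are bounded -/

/-- row JH -/
def SJH : Prop := ∀ (k G : Type) [Field k] [Group G] (A : Set ℕ),
  ∃ s : RepFun k G, AddF s ∧ SimF A s

/-- row INDP -/
def SIndP : Prop := ∀ (k G : Type) [Field k] [Group G]
  (P : ∀ (M : Type) [AddCommGroup M] [Module k M], Representation k G M → Prop),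
  (∀ (M : Type) [AddCommGroup M] [Module k M] (ρ : Representation k G M), Subsingleton M →
    P M ρ) →
  (∀ (M : Type) [AddCommGroup M] [Module k M] (ρ : Representation k G M), FiniteDimensional k M →
    Irr ρ → P M ρ) →
  (∀ (M₁ M M₂ : Type) [AddCommGroup M₁] [Module k M₁] [AddCommGroup M] [Module k M]
    [AddCommGroup M₂] [Module k M₂] (ρ₁ : Representation k G M₁) (ρ : Representation k G M)
    (ρ₂ : Representation k G M₂), FiniteDimensional k M → Ses ρ₁ ρ ρ₂ → P M₁ ρ₁ → P M₂ ρ₂ →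
    P M ρ) →
  ∀ (M : Type) [AddCommGroup M] [Module k M] (ρ : Representation k G M), FiniteDimensional k M →
    P M ρ

/-- row INDP: an irreducible subrepresentation -/
def SMin : Prop := ∀ (k G M : Type) [Field k] [Group G] [AddCommGroup M] [Module k M]
  (ρ : Representation k G M), FiniteDimensional k M → Nontrivial M →
    ∃ (U : Submodule k M) (h : Inv ρ U), Irr (ρ.subrepresentation U h) ∧
      Ses (ρ.subrepresentation U h) ρ (ρ.quotient U h)

/-- row INDP -/
def SSum : Prop := ∀ (k G : Type) [Field k] [Group G] (m : ℕ) (A : Fin m → Set ℕ)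
  (s : Fin m → RepFun k G), (∀ i j, i ≠ j → Disjoint (A i) (A j)) → (∀ i, AddF (s i)) →
  (∀ i, SimF (A i) (s i)) → ∀ (M : Type) [AddCommGroup M] [Module k M] (ρ : Representation k G M),
    FiniteDimensional k M → ∑ i, s i M ρ ≤ Module.finrank k M

/-- row HOMX -/
def SHomX : Prop := ∀ (k G T : Type) [Field k] [Group G] [AddCommGroup T] [Module k T]
  (τ : Representation k G T) (D : ℕ) (s s' : RepFun k G), FiniteDimensional k T → Irr τ →
  AddF s → SimF {u | u ≤ D} s → AddF s' →
  SimF {u | Module.finrank k T ≤ u * D ∧ u ≤ Module.finrank k T * D} s' →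
  ∀ (M : Type) [AddCommGroup M] [Module k M] (ρ : Representation k G M), FiniteDimensional k M →
    Module.finrank k T * s M ρ ≤ D ^ 2 * s' (T →ₗ[k] M) (τ.linHom ρ)

/-- row REG -/
def SReg : Prop := ∀ (k L T : Type) [Field k] [Group L] [Finite L] [AddCommGroup T] [Module k T]
  (τ : Representation k L T) (s : RepFun k L), FiniteDimensional k T → AddF s →
    s (T →ₗ[k] (L → k)) (τ.linHom (reg k L)) = Module.finrank k T * s (L → k) (reg k L)

/-- row FIX -/
def SFix : Prop := ∀ (k L : Type) [Field k] [Group L] [Finite L] (E : Subgroup L) (D : ℕ)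
  (s : RepFun k L), Fb k E D → AddF s → SimF {u | u ≤ D} s →
    Nat.card L ≤ Nat.card E * s (L → k) (reg k L)

/-- row BND -/
def SCnt : Prop := ∀ (k L : Type) [Field k] [Group L] [Finite L] (E : Subgroup L) (D : ℕ),
  Fb k E D → ∀ (m : ℕ) (t : Fin m → ℕ), (∀ i j, i < j → D ^ 2 * t i < t j) →
  (∀ i, ∃ (T : Type) (_ : AddCommGroup T) (_ : Module k T) (τ : Representation k L T),
    FiniteDimensional k T ∧ Irr τ ∧ Module.finrank k T = t i) → m ≤ D ^ 2 * Nat.card E

/-- row BND -/
def SBnd : Prop := ∀ (p : ℕ) [Fact p.Prime] (G : Type) [Group G], LF G → W (ZMod p) G →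
  ∃ D, BdK p G D

/-- row SPC -/
def SSpc : Prop := ∀ (p : ℕ) [Fact p.Prime] (G : Type) [Group G] (D : ℕ), LF G → BdK p G D →
  BdA p G D

/-- row SPC -/
def SLast : Prop := ∀ (p : ℕ) [Fact p.Prime] (G : Type) [Group G], LF G → W (ZMod p) G →
  Bd p G 1 → IsPGroup p (commutator G)

/-! ### groups with representations of bounded degree -/

/-- row CONN: a connected subgroup of finite index -/
def SConn : Prop := ∀ (K G ι : Type) [Field K] [Group G] [Fintype ι] [DecidableEq ι]
  (ρ : G →* Matrix ι ι K), ∃ N : Subgroup G, N.Normal ∧ N.FiniteIndex ∧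
    IsDomain (cf (ρ.comp N.subtype))

/-- row DESC: linear independence over an intersection of fields -/
def SDesc : Prop := ∀ (Φ : Type) [Field Φ] (F : ℕ → Subfield Φ), Antitone F →
  ∀ (ι : Type) [Fintype ι] (f : ι → Φ),
    (∀ c : ι → Φ, (∀ i a, c i ∈ F a) → ∑ i, c i * f i = 0 → c = 0) →
    ∃ a, ∀ c : ι → Φ, (∀ i, c i ∈ F a) → ∑ i, c i * f i = 0 → c = 0

/-- row DESC: rational functions that are `p ^ a`-th powers for all `a` -/
def SPerf0 : Prop := ∀ (p : ℕ) [Fact p.Prime] (K : Type) [Field K] [IsAlgClosed K] [CharP K p]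
  (s : ℕ) (z : FractionRing (MvPolynomial (Fin s) K)), (∀ a : ℕ, ∃ y, y ^ p ^ a = z) →
    ∃ c : K, algebraMap K _ c = z

/-- row PERF -/
def SPerf : Prop := ∀ (p : ℕ) [Fact p.Prime] (K O : Type) [Field K] [IsAlgClosed K] [CharP K p]
  [CommRing O] [IsDomain O] [Algebra K O] [Algebra.FiniteType K O] (z : FractionRing O),
    (∀ a : ℕ, ∃ y, y ^ p ^ a = z) → ∃ c : K, algebraMap K _ c = z

/-- row PERF -/
def SFrob : Prop := ∀ (p : ℕ) [Fact p.Prime] (K O ι : Type) [Field K] [IsAlgClosed K] [CharP K p]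
  [CommRing O] [IsDomain O] [Algebra K O] [Algebra.FiniteType K O] [Fintype ι] (f : ι → O),
    LinearIndependent K f →
    ∃ a : ℕ, LinearIndependent K fun ij : ι × ι => f ij.1 * f ij.2 ^ p ^ a

/-- row ONE -/
def SOne : Prop := ∀ (p : ℕ) [Fact p.Prime] (K N : Type) [Field K] [IsAlgClosed K] [CharP K p]
  [Group N] (O : Subalgebra K (N → K)) (D : ℕ), IsDomain O → O.FG → Bd p N D →
  ∀ (n : ℕ) (τ : N →* Matrix (Fin n) (Fin n) K), AI τ → (∀ i j, (fun h => τ h i j) ∈ O) → n ≤ 1

/-- row DIAG -/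
def SDiag : Prop := ∀ (p : ℕ) [Fact p.Prime] (K G : Type) [Field K] [IsAlgClosed K] [CharP K p]
  [Group G] (D n : ℕ) (ρ : G →* Matrix (Fin n) (Fin n) K), BdA p G D → AI ρ →
  ∃ (N : Subgroup G) (ρ' : G →* Matrix (Fin n) (Fin n) K) (χ : Fin n → N →* K),
    N.FiniteIndex ∧ AI ρ' ∧ (∀ h : N, ρ' h = Matrix.diagonal fun i => χ i h) ∧
    ∀ i j (m : ℕ), 0 < m → (∀ h, χ i h ^ m = χ j h ^ m) → χ i = χ j

/-- row KEYT -/
def SKeyT : Prop := ∀ (K N ι : Type) [Field K] [Group N] [Fintype ι] (n : ℕ)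
  (b : N →* Matrix (Fin n) (Fin n) K) (χ : ι → N →* K), AI b →
  (∀ i j, i ≠ j → ∀ m : ℕ, 0 < m → ∃ h, χ i h ^ m ≠ χ j h ^ m) →
  ∀ C : ι → Matrix (Fin n) (Fin n) K, (∀ h, ∑ i, χ i h * (C i * b h).trace = 0) → C = 0

/-- row TENS -/
def STens : Prop := ∀ (K G : Type) [Field K] [Group G] (N : Subgroup G) (n₁ n₂ : ℕ)
  (ρ₁ : G →* Matrix (Fin n₁) (Fin n₁) K) (ρ₂ : G →* Matrix (Fin n₂) (Fin n₂) K)
  (χ : Fin n₁ → N →* K), AI ρ₁ → AI (ρ₂.comp N.subtype) →
  (∀ h : N, ρ₁ h = Matrix.diagonal fun i => χ i h) →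
  (∀ i j (m : ℕ), 0 < m → (∀ h, χ i h ^ m = χ j h ^ m) → χ i = χ j) →
    ∃ ρ : G →* Matrix (Fin (n₁ * n₂)) (Fin (n₁ * n₂)) K, AI ρ

/-- row BD2 -/
def SBd2 : Prop := ∀ (p : ℕ) [Fact p.Prime] (G : Type) [Group G] (D : ℕ), BdA p G D →
  ∃ N : Subgroup G, N.FiniteIndex ∧ Bd p N 1

/-- in the assembly: locally finite groups -/
def SLft : Prop := ∀ (p : ℕ) [Fact p.Prime] (G : Type) [Group G], LF G → W (ZMod p) G → PVS p G

/-- in the assembly -/
def SLfd : Prop := ∀ (p : ℕ) [Fact p.Prime] (G : Type) [Group G], LFD G → W (ZMod p) G → PVS p G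

/-! ### extensions -/

/-- row MINB -/
def SMinB : Prop := ∀ (p : ℕ) [Fact p.Prime] (G : Type) [Group G] (B : Subgroup G), B.Normal →
  Cm B B → Tf B → FinRk B → (∀ H : Subgroup G, H.FG → B.relIndex H ≠ 0) →
  (∀ g : G, ∃ j : ℕ, g ^ p ^ j ∈ B) → (Subgroup.centralizer (B : Set G)).FiniteIndex

/-- row EXT0 -/
def SExt0 : Prop := ∀ (p : ℕ) [Fact p.Prime] (G : Type) [Group G] (A : Subgroup G), LP G →
  W (ZMod p) G → A.Normal → Cm A A → (∀ g : G, ∃ j : ℕ, g ^ p ^ j ∈ A) → PVS p G

/-- row EXT -/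
def SExt3 : Prop := ∀ (p : ℕ) [Fact p.Prime] (G : Type) [Group G] (N : Subgroup G) [N.Normal],
  LP G → W (ZMod p) G → PVS p N → PVS p (G ⧸ N) → PVS p G

/-! ### the general case -/

/-- row GAP -/
def SGap : Prop := ∀ (p : ℕ) [Fact p.Prime] (L : Type) [Group L] (H : Subgroup L), NVS L →
  H.index = 0 → ∃ Y Y₁ : Subgroup L, H ≤ Y ∧ Y ≤ Y₁ ∧ Y.relIndex Y₁ ≠ 1 ∧ ¬ p ∣ Y.relIndex Y₁

/-- row BIGR -/
def SBigR : Prop := ∀ (p : ℕ) [Fact p.Prime] (G : Type) [Group G] (H K : Subgroup G), LP G →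
  H.FG → K ≤ H → K.relIndex H ≠ 0 → FtL (Kp p) H K →
    Big (K.subgroupOf (Subgroup.normalClosure (K : Set G)))

/-- row BIGR -/
def SQfb : Prop := ∀ (k G Q : Type) [Field k] [Group G] [Group Q] (f : G →* Q)
  (H : Subgroup G) (D : ℕ), Function.Surjective f → H.FG → FbL k H D → FbL k (H.map f) D

/-- row WT: weight vectors -/
def SWt : Prop := ∀ (k L : Type) [Field k] [IsAlgClosed k] [Group L] (E A : Subgroup L) (D : ℕ),
  Finite E → Fb k E D → A.Normal → Cm A A → Tf A → ∀ χ : L → k, IsCh A χ →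
    ∃ (T : Type) (_ : AddCommGroup T) (_ : Module k T) (σ : Representation k L T) (u : T),
      FiniteDimensional k T ∧ Module.finrank k T ≤ D ∧ u ≠ 0 ∧ ∀ a ∈ A, σ a u = χ a • u

/-- row CHI -/
def SChi : Prop := ∀ (p : ℕ) [Fact p.Prime] (G : Type) [Group G] (A : Subgroup G), A.FG →
  Cm A A → Tf A → ∀ C : Finset G, (∀ c ∈ C, c ∈ A ∧ c ≠ 1) →
    ∃ χ : G → Kp p, IsCh A χ ∧ ∀ c ∈ C, χ c ≠ 1

/-- row CHI -/
def SPln : Prop := ∀ (L : Type) [Group L], NVS L → Infinite L →
  ∃ A : Subgroup L, A.Normal ∧ A ≠ ⊥ ∧ Cm A A ∧ Tf A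

/-- row CEN -/
def SCen : Prop := ∀ (p : ℕ) [Fact p.Prime] (L : Type) [Group L] (E A : Subgroup L) (D : ℕ),
  Finite E → Fb (Kp p) E D → A.Normal → A.FG → Cm A A → Tf A →
    (Subgroup.centralizer (A : Set L)).index ≠ 0 ∧ (Subgroup.centralizer (A : Set L)).index ≤ D ∧
    ∀ x ∈ Subgroup.centralizer (A : Set L), ∀ y ∈ Subgroup.centralizer (A : Set L),
      x * y * x⁻¹ * y⁻¹ ∈ A → x * y = y * x

/-- row VAL -/
def SVal : Prop := ∀ (p : ℕ) [Fact p.Prime] (L : Type) [Group L] (E : Subgroup L) (D : ℕ),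
  NVS L → Finite E → Fb (Kp p) E D → VA L

/-- row DEL -/
def SDel : Prop := ∀ (p : ℕ) [Fact p.Prime] (G : Type) [Group G] (E : Subgroup G) (D : ℕ),
  LP G → Finite E → FbL (Kp p) E D → ∃ Δ : Subgroup G, Δ.FiniteIndex ∧ LFD Δ

/-- row PLB -/
def SPlb : Prop := ∀ (G K : Type) [Group G] [Group K] (i : K →* G), Function.Injective i →
  Big i.range → ∀ A : Subgroup K, Plinth A → LFD (Subgroup.normalClosure (A.map i : Set G))

/-- row HL: finite Hirsch length -/
def SHl : Prop := ∀ (p : ℕ) [Fact p.Prime] (G : Type) [Group G], LP G → W (ZMod p) G →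
  ∀ Γ : Subgroup G, Big Γ → PVS p G

/-- in the assembly -/
def SMain : Prop := ∀ (p : ℕ) [Fact p.Prime] (G : Type) [Group G], LP G → W (ZMod p) G → PVS p G

/-- row EAL -/
def SEal : Prop := ∀ (p : ℕ) [Fact p.Prime] (G : Type) [Group G], EA G → W (ZMod p) G → LP G

/-- row WS3 -/
def SEaf : Prop := ∀ (G : Type) [Group G], EA G → Group.FG G → (∀ g : G, IsOfFinOrder g) →
  Finite G

/-- row WS3 -/
def SWs3 : Prop := ∀ (p : ℕ) [Fact p.Prime] (F G Q : Type) [Field F] [CharP F p] [Group G]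
  [Group Q] (f : G →* Q), Function.Surjective f →
  (∀ H : Subgroup G, H.FG → Finite (f.ker.subgroupOf H)) → IsPGroup p f.ker → W F Q → W F G

end Pool.Agent.MP_6a4325_al.H84
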